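import Pool.Agent.KS6_4.MV.Trans

/-! # Means over spheres -/

open MeasureTheory Metric Set Filter Topology
open scoped ENNReal Pointwise

namespace Pool.Agent.KS6_4.MV

open Pool.Agent.Y767.PB

variable {k : ℕ} {A : Set (E (k + 3))}

lemma toSphere_singleton (ω : sphere (0 : E (k + 3)) 1) :
    (volume : Measure (E (k + 3))).toSphere {ω} = 0 := by
  rw [Measure.toSphere_apply' _ (measurableSet_singleton ω)]
  have h1 : (Ioo (0:ℝ) 1 • ((↑) '' ({ω} : Set (sphere (0 : E (k + 3)) 1)) : Set (E (k + 3)))) ⊆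
      (Submodule.span ℝ {(ω : E (k + 3))} : Set (E (k + 3))) := by
    rw [image_singleton]
    rintro z hz
    obtain ⟨a, _, b, hb, rfl⟩ := Set.mem_smul.1 hz
    rw [mem_singleton_iff.1 hb]
    exact Submodule.smul_mem _ _ (Submodule.mem_span_singleton_self _)
  have h2 : Submodule.span ℝ {(ω : E (k + 3))} ≠ ⊤ := by
    intro hc
    have h3 : Module.finrank ℝ (Submodule.span ℝ {(ω : E (k + 3))}) = k + 3 := by
      rw [hc, finrank_top]; simp
    have h4 := finrank_span_singleton (K := ℝ) (v := (ω : E (k + 3))) (by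
      intro h0
      have := ω.2
      rw [h0] at this
      simp at this)
    omega
  rw [measure_mono_null h1 (Measure.addHaar_submodule volume _ h2), mul_zero]

lemma N_meas : Measurable (N (k := k)) := by
  unfold N; fun_prop

lemma sphN_ne {x : E (k + 3)} (hx : ‖x‖ ≠ 1) :
    ∫⁻ ω : sphere (0 : E (k + 3)) 1, ENNReal.ofReal (N (x - (ω : E (k + 3))))
        ∂((volume : Measure (E (k + 3))).toSphere) =
      SS k * ENNReal.ofReal ((max ‖x‖ 1 ^ (k + 1))⁻¹) := by
  rw [← sph_l k x hx]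
  simp_rw [N_eq]

lemma N_tend {x : E (k + 3)} {ω : E (k + 3)} (hne : ω ≠ x) :
    Tendsto (fun n : ℕ => ENNReal.ofReal (N ((1 - 1 / ((n:ℝ) + 1 + 1)) • x - ω))) atTop
      (𝓝 (ENNReal.ofReal (N (x - ω)))) := by
  apply ENNReal.tendsto_ofReal
  have h1 : Tendsto (fun n : ℕ => (1 - 1 / ((n:ℝ) + 1 + 1)) • x - ω) atTop (𝓝 (x - ω)) := by
    have h2 : Tendsto (fun n : ℕ => 1 - 1 / ((n:ℝ) + 1 + 1)) atTop (𝓝 1) := by
      have h3 := tendsto_one_div_add_atTop_nhds_zero_nat (𝕜 := ℝ)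
      have h4 := (tendsto_add_atTop_iff_nat 1).2 h3
      have h5 := h4.const_sub 1
      rw [sub_zero] at h5
      refine h5.congr fun n => ?_
      push_cast
      rfl
    have h6 := (h2.smul_const x).sub_const ω
    rwa [one_smul] at h6
  exact (N_adm.cont (x - ω) (sub_ne_zero.2 hne.symm)).tendsto.comp h1

lemma N_le_two {x ω : E (k + 3)} (hx : ‖x‖ = 1) (hω : ‖ω‖ = 1) (hne : ω ≠ x) {t : ℝ} (ht0 : 0 ≤ t)
    (ht1 : t ≤ 1) : N (t • x - ω) ≤ 2 ^ (k + 1) * N (x - ω) := by
  have h1 : ‖x - ω‖ ≤ 2 * ‖t • x - ω‖ := by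
    have h2 : ‖x - ω‖ ≤ ‖x - t • x‖ + ‖t • x - ω‖ := by
      calc ‖x - ω‖ = ‖(x - t • x) + (t • x - ω)‖ := by rw [sub_add_sub_cancel]
        _ ≤ _ := norm_add_le _ _
    have h3 : ‖x - t • x‖ = 1 - t := by
      have : x - t • x = (1 - t) • x := by module
      rw [this, norm_smul, hx, mul_one, Real.norm_of_nonneg (by linarith)]
    have h4 : ‖ω‖ - ‖t • x‖ ≤ ‖t • x - ω‖ := by
      rw [norm_sub_rev]; exact norm_sub_norm_le _ _
    rw [hω, norm_smul, hx, mul_one, Real.norm_of_nonneg ht0] at h4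
    linarith
  have h0 : 0 < ‖x - ω‖ := norm_pos_iff.2 (sub_ne_zero.2 hne.symm)
  have h5 : 0 < ‖t • x - ω‖ := by linarith
  unfold N
  rw [← div_eq_mul_inv, ← one_div, div_le_div_iff₀ (by positivity) (by positivity), one_mul,
    ← mul_pow]
  gcongr

lemma sphN_one {x : E (k + 3)} (hx : ‖x‖ = 1) :
    ∫⁻ ω : sphere (0 : E (k + 3)) 1, ENNReal.ofReal (N (x - (ω : E (k + 3))))
        ∂((volume : Measure (E (k + 3))).toSphere) = SS k := by
  set μ := (volume : Measure (E (k + 3))).toSphere with hμ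
  set t : ℕ → ℝ := fun n => 1 - 1 / ((n:ℝ) + 1 + 1) with ht
  have ht0 : ∀ n, 0 ≤ t n := by
    intro n
    simp only [ht]
    rw [sub_nonneg, div_le_one (by positivity)]
    have : (0:ℝ) ≤ n := Nat.cast_nonneg n
    linarith
  have ht1 : ∀ n, t n < 1 := by
    intro n
    simp only [ht]
    have : (0:ℝ) < 1 / ((n:ℝ) + 1 + 1) := by positivity
    linarith
  have hF : ∀ n, ∫⁻ ω : sphere (0 : E (k + 3)) 1, ENNReal.ofReal (N (t n • x - (ω : E (k + 3)))) ∂μ = SS k := by
    intro n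
    have h1 : ‖t n • x‖ = t n := by
      rw [norm_smul, hx, mul_one, Real.norm_of_nonneg (ht0 n)]
    rw [sphN_ne (by rw [h1]; exact (ht1 n).ne), h1, max_eq_right (ht1 n).le]
    simp
  have hmeas : ∀ y : E (k + 3), Measurable
      (fun ω : sphere (0 : E (k + 3)) 1 => ENNReal.ofReal (N (y - (ω : E (k + 3))))) := fun y =>
    ENNReal.measurable_ofReal.comp (N_meas.comp (measurable_const.sub measurable_subtype_coe))
  have hne : ∀ᵐ ω : sphere (0 : E (k + 3)) 1 ∂μ, (ω : E (k + 3)) ≠ x := by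
    have h1 : ∀ᵐ ω : sphere (0 : E (k + 3)) 1 ∂μ, ω ∉ ({⟨x, mem_sphere_zero_iff_norm.2 hx⟩} :
        Set (sphere (0 : E (k + 3)) 1)) :=
      measure_eq_zero_iff_ae_notMem.1 (toSphere_singleton _)
    filter_upwards [h1] with ω hω hc
    exact hω (by rw [mem_singleton_iff]; exact Subtype.ext hc)
  have hlim : ∀ᵐ ω : sphere (0 : E (k + 3)) 1 ∂μ,
      Tendsto (fun n => ENNReal.ofReal (N (t n • x - (ω : E (k + 3))))) atTop
        (𝓝 (ENNReal.ofReal (N (x - (ω : E (k + 3)))))) := by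
    filter_upwards [hne] with ω hω
    exact N_tend hω
  have hle : ∫⁻ ω : sphere (0 : E (k + 3)) 1, ENNReal.ofReal (N (x - (ω : E (k + 3)))) ∂μ ≤ SS k := by
    calc ∫⁻ ω : sphere (0 : E (k + 3)) 1, ENNReal.ofReal (N (x - (ω : E (k + 3)))) ∂μ
        = ∫⁻ ω : sphere (0 : E (k + 3)) 1,
            liminf (fun n => ENNReal.ofReal (N (t n • x - (ω : E (k + 3))))) atTop ∂μ := by
          apply lintegral_congr_ae
          filter_upwards [hlim] with ω hω
          exact hω.liminf_eq.symm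
      _ ≤ liminf (fun n => ∫⁻ ω : sphere (0 : E (k + 3)) 1,
            ENNReal.ofReal (N (t n • x - (ω : E (k + 3)))) ∂μ) atTop :=
          lintegral_liminf_le fun n => hmeas _
      _ = SS k := by simp [hF]
  have hdom := tendsto_lintegral_of_dominated_convergence (μ := μ)
    (F := fun n (ω : sphere (0 : E (k + 3)) 1) => ENNReal.ofReal (N (t n • x - (ω : E (k + 3)))))
    (f := fun ω : sphere (0 : E (k + 3)) 1 => ENNReal.ofReal (N (x - (ω : E (k + 3)))))
    (fun ω : sphere (0 : E (k + 3)) 1 => ENNReal.ofReal (2 ^ (k + 1)) * ENNReal.ofReal (N (x - (ω : E (k + 3)))))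
    (fun n => hmeas _)
    (fun n => by
      filter_upwards [hne] with ω hω
      rw [← ENNReal.ofReal_mul (by positivity)]
      exact ENNReal.ofReal_le_ofReal (N_le_two hx (mem_sphere_zero_iff_norm.1 ω.2) hω (ht0 n)
        (ht1 n).le))
    (by
      rw [lintegral_const_mul _ (hmeas x)]
      exact (ENNReal.mul_lt_top ENNReal.ofReal_lt_top (hle.trans_lt (SS_ne_top k).lt_top)).ne)
    hlim
  simp only [hF] at hdom
  exact (tendsto_nhds_unique hdom tendsto_const_nhds)

/-- the mean of the kernel over the unit sphere -/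
theorem sphN (x : E (k + 3)) :
    ∫⁻ ω : sphere (0 : E (k + 3)) 1, ENNReal.ofReal (N (x - (ω : E (k + 3))))
        ∂((volume : Measure (E (k + 3))).toSphere) =
      SS k * ENNReal.ofReal ((max ‖x‖ 1 ^ (k + 1))⁻¹) := by
  by_cases hx : ‖x‖ = 1
  · rw [sphN_one hx, hx]; simp
  · exact sphN_ne hx

theorem sphN_scaled (y : E (k + 3)) {ρ : ℝ} (hρ : 0 < ρ) :
    ∫⁻ ω : sphere (0 : E (k + 3)) 1, ENNReal.ofReal (N (ρ • (ω : E (k + 3)) - y))
        ∂((volume : Measure (E (k + 3))).toSphere) =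
      SS k * ENNReal.ofReal ((max ‖y‖ ρ ^ (k + 1))⁻¹) := by
  have h1 : ∀ ω : E (k + 3), N (ρ • ω - y) = (ρ ^ (k + 1))⁻¹ * N (ρ⁻¹ • y - ω) := by
    intro ω
    unfold N
    rw [← mul_inv, ← mul_pow]
    congr 2
    rw [show ρ * ‖ρ⁻¹ • y - ω‖ = ‖ρ • (ρ⁻¹ • y - ω)‖ by
      rw [norm_smul, Real.norm_of_nonneg hρ.le], smul_sub, smul_smul, mul_inv_cancel₀ hρ.ne',
      one_smul, norm_sub_rev]
  have hmeas : Measurable
      (fun ω : sphere (0 : E (k + 3)) 1 => ENNReal.ofReal (N (ρ⁻¹ • y - (ω : E (k + 3))))) :=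
    ENNReal.measurable_ofReal.comp (N_meas.comp (measurable_const.sub measurable_subtype_coe))
  simp_rw [h1]
  have hp : (0:ℝ) ≤ (ρ ^ (k + 1))⁻¹ := by positivity
  simp_rw [ENNReal.ofReal_mul hp]
  rw [lintegral_const_mul _ hmeas, sphN, mul_left_comm, ← ENNReal.ofReal_mul hp]
  congr 2
  rw [← mul_inv, ← mul_pow]
  congr 2
  rw [norm_smul, norm_inv, Real.norm_of_nonneg hρ.le, mul_max_of_nonneg _ _ hρ.le, mul_one,
    ← mul_assoc, mul_inv_cancel₀ hρ.ne', one_mul]

/-- the potential written with the radial kernel -/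
noncomputable def UU (A : Set (E (k + 3))) (q : ℝ) : ℝ := ∫ y in A, (max ‖y‖ q ^ (k + 1))⁻¹

/-- a radial potential is given by the radial kernel -/
theorem u_eq_UU (hA : volume A < ⊤) (hr : ∀ x y : E (k + 3), ‖x‖ = ‖y‖ → u A x = u A y)
    (x : E (k + 3)) : u A x = UU A ‖x‖ := by
  rcases (norm_nonneg x).eq_or_lt with h0 | h0
  · have hx : x = 0 := norm_eq_zero.1 h0.symm
    subst hx
    unfold u UU N
    congr 1
    funext y
    rw [zero_sub, norm_neg, norm_zero, max_eq_left (norm_nonneg y)]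
  · set ρ := ‖x‖ with hρ
    set μ := (volume : Measure (E (k + 3))).toSphere with hμ
    have hul : ∀ z : E (k + 3), ENNReal.ofReal (u A z) = ∫⁻ y in A, ENNReal.ofReal (N (z - y)) := by
      intro z
      unfold u
      rw [ofReal_integral_eq_lintegral_ofReal (N_adm.integrable hA z)
        (Eventually.of_forall fun y => N_nonneg _)]
    have h1 : ∫⁻ ω : sphere (0 : E (k + 3)) 1, ENNReal.ofReal (u A (ρ • (ω : E (k + 3)))) ∂μ =
        ENNReal.ofReal (u A x) * SS k := by
      have h2 : ∀ ω : sphere (0 : E (k + 3)) 1, u A (ρ • (ω : E (k + 3))) = u A x := by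
        intro ω
        apply hr
        rw [norm_smul, Real.norm_of_nonneg h0.le, mem_sphere_zero_iff_norm.1 ω.2, mul_one]
      simp_rw [h2]
      rw [lintegral_const, sph_univ]
    have h3 : ∫⁻ ω : sphere (0 : E (k + 3)) 1, ENNReal.ofReal (u A (ρ • (ω : E (k + 3)))) ∂μ =
        SS k * ∫⁻ y in A, ENNReal.ofReal ((max ‖y‖ ρ ^ (k + 1))⁻¹) := by
      simp_rw [hul]
      rw [lintegral_lintegral_swap]
      · have h7 : ∀ y : E (k + 3), ∫⁻ ω : sphere (0 : E (k + 3)) 1,
            ENNReal.ofReal (N (ρ • (ω : E (k + 3)) - y)) ∂μ =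
            SS k * ENNReal.ofReal ((max ‖y‖ ρ ^ (k + 1))⁻¹) := fun y => sphN_scaled y h0
        simp_rw [h7]
        rw [lintegral_const_mul]
        fun_prop
      · apply Measurable.aemeasurable
        have : Measurable (fun p : (sphere (0 : E (k + 3)) 1) × E (k + 3) =>
            ρ • (p.1 : E (k + 3)) - p.2) :=
          ((measurable_subtype_coe.comp measurable_fst).const_smul ρ).sub measurable_snd
        exact ENNReal.measurable_ofReal.comp (N_meas.comp this)
    rw [h1, mul_comm] at h3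
    have h4 : ENNReal.ofReal (u A x) = ∫⁻ y in A, ENNReal.ofReal ((max ‖y‖ ρ ^ (k + 1))⁻¹) :=
      (ENNReal.mul_right_inj (SS_ne_zero k) (SS_ne_top k)).1 h3
    have h5 : u A x = (ENNReal.ofReal (u A x)).toReal := by
      rw [ENNReal.toReal_ofReal (u_nonneg x)]
    rw [h5, h4]
    unfold UU
    rw [integral_eq_lintegral_of_nonneg_ae]
    · refine Eventually.of_forall fun y => ?_
      have : 0 < max ‖y‖ ρ := lt_max_of_lt_right h0
      simp only [Pi.zero_apply]
      positivity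
    · apply Measurable.aestronglyMeasurable
      fun_prop

end Pool.Agent.KS6_4.MV
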