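import Pool.Agent.KS6_4.MV.Pot

/-! # Ball means of the potential of a set -/

open MeasureTheory Metric Set Filter Topology
open scoped ENNReal

namespace Pool.Agent.KS6_4.MV

open Pool.Agent.Y767.PB

variable {k : ℕ}

lemma N_eq (t : E (k + 3)) : N t = ‖t‖ ^ (2 - ((k + 3 : ℕ) : ℝ)) := by
  unfold N
  have : (2 - ((k + 3 : ℕ) : ℝ)) = -((k + 1 : ℕ) : ℝ) := by push_cast; ring
  rw [this, Real.rpow_neg (norm_nonneg _), Real.rpow_natCast]

lemma vol_ball_real (x : E (k + 3)) {s : ℝ} (hs : 0 ≤ s) :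
    volume.real (ball x s) = sg k * (s ^ (k + 3) / (k + 3)) := by
  rw [measureReal_def, Measure.addHaar_ball_center, vol_ball' k hs, ENNReal.toReal_mul,
    ENNReal.toReal_ofReal (by positivity), sg]

lemma int_sub_left (f : E (k + 3) → ℝ) (x : E (k + 3)) (s : ℝ) :
    ∫ z in ball x s, f z = ∫ t in ball (0 : E (k + 3)) s, f (x - t) := by
  have h := (Measure.measurePreserving_sub_left (volume : Measure (E (k + 3))) x).setIntegral_preimage_emb
    (Homeomorph.subLeft x).measurableEmbedding f (ball x s)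
  rw [← h]
  congr 2
  ext t
  simp [dist_eq_norm]

lemma int_ball_N (x y : E (k + 3)) {s : ℝ} (hs : 0 ≤ s) :
    ∫ z in ball x s, N (z - y) = sg k * PP k ‖x - y‖ s := by
  rw [int_sub_left (fun z => N (z - y)) x s, sg, ← ball_pot k (x - y) hs]
  congr 1
  funext t
  rw [← N_eq]
  congr 1
  abel

lemma rad_int (f : ℝ → ℝ) {s : ℝ} (hs : 0 ≤ s) :
    ∫ y in ball (0 : E (k + 3)) s, f ‖y‖ = sg k * ∫ q in (0:ℝ)..s, q ^ (k + 2) * f q := by
  have h1 : ∫ y in ball (0 : E (k + 3)) s, f ‖y‖ =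
      ∫ y : E (k + 3), ((Iio s).indicator f) ‖y‖ := by
    rw [← integral_indicator measurableSet_ball]
    apply integral_congr_ae
    refine Eventually.of_forall fun y => ?_
    simp only
    by_cases h : ‖y‖ < s
    · rw [indicator_of_mem (mem_ball_zero_iff.2 h), indicator_of_mem (show ‖y‖ ∈ Iio s from h)]
    · rw [indicator_of_notMem (fun hc => h (mem_ball_zero_iff.1 hc)),
        indicator_of_notMem (show ‖y‖ ∉ Iio s from h)]
  rw [h1, integral_fun_norm_addHaar volume ((Iio s).indicator f), vol_ball_real 0 zero_le_one]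
  have hd : Module.finrank ℝ (E (k + 3)) = k + 3 := by simp
  rw [hd, one_pow, intervalIntegral.integral_of_le hs]
  have h2 : ∫ y in Ioi (0:ℝ), y ^ (k + 3 - 1) • (Iio s).indicator f y =
      ∫ q in Ioc 0 s, q ^ (k + 2) * f q := by
    rw [integral_Ioc_eq_integral_Ioo, ← integral_indicator measurableSet_Ioi,
      ← integral_indicator measurableSet_Ioo]
    congr 1
    funext q
    by_cases h0 : 0 < q
    · by_cases hq : q < s
      · rw [indicator_of_mem (show q ∈ Ioi 0 from h0), indicator_of_mem (show q ∈ Iio s from hq),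
          indicator_of_mem (show q ∈ Ioo 0 s from ⟨h0, hq⟩)]
        rfl
      · rw [indicator_of_mem (show q ∈ Ioi 0 from h0), indicator_of_notMem (show q ∉ Iio s from hq),
          indicator_of_notMem (show q ∉ Ioo 0 s from fun h => hq h.2), smul_zero]
    · rw [indicator_of_notMem (show q ∉ Ioi 0 from h0),
        indicator_of_notMem (show q ∉ Ioo 0 s from fun h => h0 h.1)]
  rw [h2]
  simp only [nsmul_eq_mul, smul_eq_mul]
  push_cast
  field_simp

/-- `Dk k s t`: the kernel minus its mean over a ball, up to a factor -/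
noncomputable def Dk (k : ℕ) (s t : ℝ) : ℝ := s ^ (k + 3) / (k + 3) * (t ^ (k + 1))⁻¹ - PP k t s

lemma Dk_out {s t : ℝ} (hs : 0 ≤ s) (h : s ≤ t) : Dk k s t = 0 := by
  unfold Dk
  rw [PP_out k hs h]
  ring

lemma Dk_pos {s t : ℝ} (ht : 0 < t) (h : t < s) : 0 < Dk k s t := by
  unfold Dk
  rw [PP_in k ht.le h.le]
  set a := s / t with ha
  have ha1 : 1 < a := (one_lt_div ht).2 h
  have hs : s = a * t := by rw [ha]; field_simp
  have h3 : (3:ℝ) ≤ ((k + 3 : ℕ) : ℝ) := by push_cast; linarith [(Nat.cast_nonneg k : (0:ℝ) ≤ k)]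
  have hb := one_add_mul_self_lt_rpow_one_add (s := a ^ 2 - 1) (by nlinarith) (by nlinarith)
    (p := ((k + 3 : ℕ) : ℝ) / 2) (by linarith)
  have h4 : (1 + (a ^ 2 - 1)) ^ (((k + 3 : ℕ) : ℝ) / 2) = a ^ (k + 3) := by
    rw [show 1 + (a ^ 2 - 1) = a ^ 2 by ring, ← Real.rpow_natCast a 2,
      ← Real.rpow_mul (by linarith), ← Real.rpow_natCast a (k + 3)]
    congr 1
    push_cast
    ring
  rw [h4] at hb
  push_cast at hb
  have hk : (0:ℝ) < (k:ℝ) + 3 := by positivity
  have e : s ^ (k + 3) / (k + 3) * (t ^ (k + 1))⁻¹ - (t ^ 2 / (k + 3) + (s ^ 2 - t ^ 2) / 2) =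
      t ^ 2 / (k + 3) * (a ^ (k + 3) - (1 + ((k:ℝ) + 3) / 2 * (a ^ 2 - 1))) := by
    rw [hs]
    have : t ^ (k + 1) ≠ 0 := by positivity
    field_simp
    ring
  rw [e]
  have : 0 < t ^ 2 / ((k:ℝ) + 3) := by positivity
  exact mul_pos this (by linarith)

lemma Dk_nonneg {s t : ℝ} (hs : 0 ≤ s) (ht : 0 < t) : 0 ≤ Dk k s t := by
  rcases lt_or_ge t s with h | h
  · exact (Dk_pos ht h).le
  · exact (Dk_out hs h).ge

variable {A : Set (E (k + 3))}

lemma prod_int (hA : volume A < ⊤) (x : E (k + 3)) (s : ℝ) :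
    Integrable (Function.uncurry fun z y : E (k + 3) => N (z - y))
      ((volume.restrict (ball x s)).prod (volume.restrict A)) := by
  have hm : Measurable (Function.uncurry fun z y : E (k + 3) => N (z - y)) := by
    unfold N
    have : Measurable (fun p : E (k + 3) × E (k + 3) => (‖p.1 - p.2‖ ^ (k + 1))⁻¹) := by fun_prop
    exact this
  have f1 : IsFiniteMeasure (volume.restrict (ball x s)) := ⟨by
    rw [Measure.restrict_apply_univ]; exact measure_ball_lt_top⟩
  have f2 : IsFiniteMeasure (volume.restrict A) := ⟨by rwa [Measure.restrict_apply_univ]⟩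
  rw [integrable_prod_iff hm.aestronglyMeasurable]
  refine ⟨Eventually.of_forall fun z => N_adm.integrable hA z, ?_⟩
  apply Integrable.mono' (g := fun _ => (CC A).toReal) (integrable_const _)
  · exact hm.aestronglyMeasurable.norm.integral_prod_right'
  · refine Eventually.of_forall fun z => ?_
    rw [Real.norm_of_nonneg (integral_nonneg fun _ => norm_nonneg _)]
    calc ∫ y in A, ‖N (z - y)‖ ≤ ∫ y in A, Th (z - y) :=
          integral_mono (N_adm.integrable hA z).norm (integrable_Th hA z) fun y => N_adm.bound _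
      _ ≤ _ := int_Th_le hA z

lemma int_u (hA : volume A < ⊤) (x : E (k + 3)) {s : ℝ} (hs : 0 ≤ s) :
    ∫ z in ball x s, u A z = ∫ y in A, sg k * PP k ‖x - y‖ s := by
  unfold u
  rw [integral_integral_swap (prod_int hA x s)]
  apply integral_congr_ae
  exact Eventually.of_forall fun y => int_ball_N x y hs

lemma PP_int (hA : volume A < ⊤) (x : E (k + 3)) {s : ℝ} (hs : 0 ≤ s) :
    IntegrableOn (fun y => PP k ‖x - y‖ s) A := by
  have h1 := (prod_int hA x s).integral_prod_right
  have h2 : IntegrableOn (fun y => sg k * PP k ‖x - y‖ s) A := by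
    apply h1.congr
    exact Eventually.of_forall fun y => int_ball_N x y hs
  have h3 : (fun y : E (k + 3) => PP k ‖x - y‖ s) =
      fun y => (sg k)⁻¹ * (sg k * PP k ‖x - y‖ s) := by
    funext y
    rw [← mul_assoc, inv_mul_cancel₀ (sg_pos k).ne', one_mul]
  rw [h3]
  exact h2.const_mul _

lemma Dk_int (hA : volume A < ⊤) (x : E (k + 3)) {s : ℝ} (hs : 0 ≤ s) :
    IntegrableOn (fun y => Dk k s ‖x - y‖) A := by
  unfold Dk
  exact ((N_adm.integrable hA x).const_mul _).sub (PP_int hA x hs)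

/-- the defect of the mean value property of the potential -/
lemma u_defect (hA : volume A < ⊤) (x : E (k + 3)) {s : ℝ} (hs : 0 ≤ s) :
    volume.real (ball x s) * u A x - ∫ z in ball x s, u A z =
      sg k * ∫ y in A, Dk k s ‖x - y‖ := by
  rw [int_u hA x hs, vol_ball_real x hs, integral_const_mul, mul_assoc, ← mul_sub]
  congr 1
  have e : ∀ y : E (k + 3), Dk k s ‖x - y‖ =
      s ^ (k + 3) / (k + 3) * N (x - y) - PP k ‖x - y‖ s := fun _ => rfl
  simp_rw [e]
  rw [integral_sub ((N_adm.integrable hA x).const_mul _) (PP_int hA x hs), integral_const_mul]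
  rfl

lemma Dk_ind {x y : E (k + 3)} {s : ℝ} (hs : 0 ≤ s) :
    Dk k s ‖x - y‖ = (ball x s).indicator (fun y => Dk k s ‖x - y‖) y := by
  by_cases h : y ∈ ball x s
  · rw [indicator_of_mem h]
  · rw [indicator_of_notMem h]
    apply Dk_out hs
    rw [mem_ball, dist_eq_norm, norm_sub_rev, not_lt] at h
    exact h

lemma Dk_inter (x : E (k + 3)) {s : ℝ} (hs : 0 ≤ s) :
    ∫ y in A, Dk k s ‖x - y‖ = ∫ y in A ∩ ball x s, Dk k s ‖x - y‖ := by
  rw [← setIntegral_indicator measurableSet_ball]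
  exact integral_congr_ae (Eventually.of_forall fun y => Dk_ind hs)

/-- the constant `κ` -/
noncomputable def kap (k : ℕ) (s : ℝ) : ℝ := ∫ y in ball (0 : E (k + 3)) s, Dk k s ‖y‖

lemma Dk_ball (x : E (k + 3)) (s : ℝ) : ∫ y in ball x s, Dk k s ‖x - y‖ = kap k s := by
  rw [int_sub_left (fun y => Dk k s ‖x - y‖) x s, kap]
  congr 1
  funext t
  rw [sub_sub_cancel]

lemma Dk_full {x : E (k + 3)} {s : ℝ} (hs : 0 ≤ s) (h : volume (ball x s \ A) = 0) :
    ∫ y in A, Dk k s ‖x - y‖ = kap k s := by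
  rw [Dk_inter x hs, ← Dk_ball x s]
  apply setIntegral_congr_set
  rw [inter_comm]
  have h1 : ball x s ∩ A = ball x s \ (ball x s \ A) := by rw [sdiff_sdiff_right_self]
  rw [h1]
  exact sdiff_null_ae_eq_self h

lemma full_of_Dk (hm : MeasurableSet A) {x : E (k + 3)} {s : ℝ} (hs : 0 ≤ s)
    (h : ∫ y in A, Dk k s ‖x - y‖ = kap k s) : volume (ball x s \ A) = 0 := by
  rw [Dk_inter x hs, ← Dk_ball x s, inter_comm] at h
  have hI := Dk_int (k := k) (A := ball x s) measure_ball_lt_top x hs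
  have h1 := integral_inter_add_sdiff (μ := volume) (f := fun y => Dk k s ‖x - y‖) hm hI
  have h2 : ∫ y in ball x s \ A, Dk k s ‖x - y‖ = 0 := by linarith
  have hne : ∀ᵐ y : E (k + 3), y ∉ ({x} : Set (E (k + 3))) :=
    measure_eq_zero_iff_ae_notMem.1 (measure_singleton x)
  have h3 : 0 ≤ᵐ[volume.restrict (ball x s \ A)] fun y => Dk k s ‖x - y‖ := by
    filter_upwards [ae_restrict_of_ae hne] with y hy
    apply Dk_nonneg hs
    rw [norm_pos_iff, sub_ne_zero]
    exact fun hc => hy (by rw [hc]; rfl)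
  rw [setIntegral_eq_zero_iff_of_nonneg_ae h3 (hI.mono_set sdiff_subset)] at h2
  by_contra hc
  have h4 : ∀ᵐ y ∂(volume.restrict (ball x s \ A)), False := by
    filter_upwards [h2, ae_restrict_of_ae hne, ae_restrict_mem (measurableSet_ball.diff hm)]
      with y h5 h6 h7
    have h8 : 0 < ‖x - y‖ := by
      rw [norm_pos_iff, sub_ne_zero]
      exact fun hc => h6 (by rw [hc]; rfl)
    have h9 : ‖x - y‖ < s := by
      have := h7.1
      rwa [mem_ball, dist_eq_norm, norm_sub_rev] at this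
    have h10 := Dk_pos (k := k) h8 h9
    exact h10.ne' h5
  rw [ae_iff] at h4
  simp only [not_false_eq_true, ofPred_true, Measure.restrict_apply_univ] at h4
  exact hc h4

lemma kap_eq {s : ℝ} (hs : 0 < s) :
    kap k s = sg k * (s ^ (k + 5) * (k + 1) / (2 * (k + 3) * (k + 5))) := by
  unfold kap
  rw [rad_int _ hs.le]
  congr 1
  have h1 : ∫ q in (0:ℝ)..s, q ^ (k + 2) * Dk k s q =
      ∫ q in (0:ℝ)..s, (s ^ (k + 3) / (k + 3) * q - (1 / ((k:ℝ) + 3) - 1 / 2) * q ^ (k + 4) -
        s ^ 2 / 2 * q ^ (k + 2)) := by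
    rw [intervalIntegral.integral_of_le hs.le, intervalIntegral.integral_of_le hs.le]
    apply setIntegral_congr_fun measurableSet_Ioc
    intro q hq
    have hq0 : 0 < q := hq.1
    simp only
    unfold Dk
    rw [PP_in k hq0.le hq.2]
    have : q ^ (k + 1) ≠ 0 := by positivity
    field_simp
    ring
  rw [h1, intervalIntegral.integral_sub, intervalIntegral.integral_sub,
    intervalIntegral.integral_const_mul, intervalIntegral.integral_const_mul,
    intervalIntegral.integral_const_mul, integral_id, integral_pow, integral_pow]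
  · push_cast
    have : (0:ℝ) ^ (k + 4 + 1) = 0 := zero_pow (by omega)
    rw [this]
    have : (0:ℝ) ^ (k + 2 + 1) = 0 := zero_pow (by omega)
    rw [this]
    have h5 : (k:ℝ) + 4 + 1 ≠ 0 := by positivity
    have h3 : (k:ℝ) + 2 + 1 ≠ 0 := by positivity
    have h5' : (k:ℝ) + 5 ≠ 0 := by positivity
    have h3' : (k:ℝ) + 3 ≠ 0 := by positivity
    have e5 : (k:ℝ) + 4 + 1 = k + 5 := by ring
    have e3 : (k:ℝ) + 2 + 1 = k + 3 := by ring
    rw [e5, e3]
    field_simp
    ring
  · exact (by fun_prop : Continuous fun q : ℝ => s ^ (k + 3) / (k + 3) * q).intervalIntegrable _ _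
  · exact (by fun_prop : Continuous fun q : ℝ =>
      (1 / ((k:ℝ) + 3) - 1 / 2) * q ^ (k + 4)).intervalIntegrable _ _
  · exact (by fun_prop : Continuous fun q : ℝ => s ^ (k + 3) / (k + 3) * q -
      (1 / ((k:ℝ) + 3) - 1 / 2) * q ^ (k + 4)).intervalIntegrable _ _
  · exact (by fun_prop : Continuous fun q : ℝ => s ^ 2 / 2 * q ^ (k + 2)).intervalIntegrable _ _

lemma sq_ball (x : E (k + 3)) {s : ℝ} (hs : 0 < s) :
    ∫ z in ball x s, ‖z‖ ^ 2 = volume.real (ball x s) * ‖x‖ ^ 2 + sg k * (s ^ (k + 5) / (k + 5)) := by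
  have hbi : ∀ g : E (k + 3) → ℝ, Continuous g → IntegrableOn g (ball 0 s) := fun g hg =>
    (hg.continuousOn.integrableOn_compact (isCompact_closedBall 0 s)).mono_set ball_subset_closedBall
  rw [int_sub_left (fun z => ‖z‖ ^ 2) x s]
  have h1 : ∀ t : E (k + 3), ‖x - t‖ ^ 2 = ‖x‖ ^ 2 - 2 * inner ℝ x t + ‖t‖ ^ 2 := fun t =>
    norm_sub_sq_real x t
  simp_rw [h1]
  rw [integral_add (hbi _ (by fun_prop)) (hbi _ (by fun_prop)),
    integral_sub (hbi _ (by fun_prop)) (hbi _ (by fun_prop)), integral_const_mul]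
  have h2 : ∫ t in ball (0 : E (k + 3)) s, inner ℝ x t = 0 := by
    have h3 := int_sub_left (fun t => inner ℝ x t) (0 : E (k + 3)) s
    simp only [zero_sub, inner_neg_right] at h3
    rw [integral_neg] at h3
    linarith
  have h4 : ∫ t in ball (0 : E (k + 3)) s, ‖t‖ ^ 2 = sg k * (s ^ (k + 5) / (k + 5)) := by
    rw [rad_int (fun q => q ^ 2) hs.le]
    congr 1
    have h5 : ∀ q : ℝ, q ^ (k + 2) * q ^ 2 = q ^ (k + 4) := fun q => by ring
    simp_rw [h5]
    rw [integral_pow]
    push_cast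
    rw [zero_pow (by omega), sub_zero]
    congr 1
    ring
  rw [h2, h4, setIntegral_const, smul_eq_mul, mul_zero, sub_zero, vol_ball_real x hs.le,
    vol_ball_real 0 hs.le]

end Pool.Agent.KS6_4.MV
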