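import Pool.Agent.KS6_4.MV.Avg

/-! # The sets with the mean value property, up to null sets -/

open MeasureTheory Metric Set Filter Topology
open scoped ENNReal

namespace Pool.Agent.KS6_4.MV

open Pool.Agent.Y767.PB

variable {k : ℕ} {A : Set (E (k + 3))}

lemma UU_int (hA : volume A < ⊤) {q : ℝ} (hq : 0 ≤ q) :
    IntegrableOn (fun y : E (k + 3) => (max ‖y‖ q ^ (k + 1))⁻¹) A := by
  rcases hq.eq_or_lt with h | h
  · have h1 := N_adm.integrable hA (0 : E (k + 3))
    refine h1.congr (Eventually.of_forall fun y => ?_)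
    simp only
    unfold N
    rw [zero_sub, norm_neg, ← h, max_eq_left (norm_nonneg y)]
  · have hfin : IsFiniteMeasure (volume.restrict A) := ⟨by rwa [Measure.restrict_apply_univ]⟩
    apply Integrable.mono' (g := fun _ => (q ^ (k + 1))⁻¹) (integrable_const _)
    · apply Measurable.aestronglyMeasurable
      fun_prop
    · refine Eventually.of_forall fun y => ?_
      have h1 : 0 < max ‖y‖ q := lt_max_of_lt_right h
      rw [Real.norm_of_nonneg (by positivity)]
      gcongr
      exact le_max_right _ _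

lemma lemA (hA : volume A < ⊤) (hm : MeasurableSet A) {q : ℝ} (hq : 0 < q)
    (h : UU A q = volume.real A * (q ^ (k + 1))⁻¹) : volume (A \ closedBall 0 q) = 0 := by
  have hfin : IsFiniteMeasure (volume.restrict A) := ⟨by rwa [Measure.restrict_apply_univ]⟩
  have h1 : ∫ y in A, ((q ^ (k + 1))⁻¹ - (max ‖y‖ q ^ (k + 1))⁻¹) = 0 := by
    rw [integral_sub (integrable_const _) (UU_int hA hq.le), setIntegral_const, smul_eq_mul]
    unfold UU at h
    rw [h, sub_self]
  have h2 : 0 ≤ᵐ[volume.restrict A] fun y : E (k + 3) =>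
      (q ^ (k + 1))⁻¹ - (max ‖y‖ q ^ (k + 1))⁻¹ := by
    refine Eventually.of_forall fun y => ?_
    simp only [Pi.zero_apply, sub_nonneg]
    gcongr
    exact le_max_right _ _
  rw [setIntegral_eq_zero_iff_of_nonneg_ae h2
    ((integrable_const _).sub (UU_int hA hq.le))] at h1
  have h3 : ∀ᵐ y ∂(volume.restrict A), y ∈ closedBall (0 : E (k + 3)) q := by
    filter_upwards [h1] with y hy
    rw [mem_closedBall_zero_iff]
    by_contra hc
    push Not at hc
    rw [max_eq_left hc.le] at hy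
    simp only [Pi.zero_apply] at hy
    have h4 : (‖y‖ ^ (k + 1))⁻¹ < (q ^ (k + 1))⁻¹ := by gcongr
    linarith
  rw [ae_iff, Measure.restrict_apply' hm] at h3
  refine measure_mono_null ?_ h3
  rintro y ⟨hy1, hy2⟩
  exact ⟨hy2, hy1⟩

lemma lemB (hA : volume A < ⊤) (hm : MeasurableSet A) {q q' : ℝ} (hq : 0 ≤ q) (hqq : q < q')
    (h : UU A q = UU A q') : volume (A ∩ ball 0 q') = 0 := by
  have hq' : 0 < q' := hq.trans_lt hqq
  have h1 : ∫ y in A, ((max ‖y‖ q ^ (k + 1))⁻¹ - (max ‖y‖ q' ^ (k + 1))⁻¹) = 0 := by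
    rw [integral_sub (UU_int hA hq) (UU_int hA hq'.le)]
    unfold UU at h
    rw [h, sub_self]
  have hne : ∀ᵐ y : E (k + 3), y ∉ ({0} : Set (E (k + 3))) :=
    measure_eq_zero_iff_ae_notMem.1 (measure_singleton 0)
  have h2 : 0 ≤ᵐ[volume.restrict A] fun y : E (k + 3) =>
      (max ‖y‖ q ^ (k + 1))⁻¹ - (max ‖y‖ q' ^ (k + 1))⁻¹ := by
    filter_upwards [ae_restrict_of_ae hne] with y hy
    have hy0 : 0 < ‖y‖ := norm_pos_iff.2 fun hc => hy hc
    have : 0 < max ‖y‖ q := lt_max_of_lt_left hy0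
    simp only [Pi.zero_apply, sub_nonneg]
    gcongr
  rw [setIntegral_eq_zero_iff_of_nonneg_ae h2 ((UU_int hA hq).sub (UU_int hA hq'.le))] at h1
  have h3 : ∀ᵐ y ∂(volume.restrict A), y ∉ ball (0 : E (k + 3)) q' := by
    filter_upwards [h1, ae_restrict_of_ae hne] with y hy hy0 hc
    rw [mem_ball_zero_iff] at hc
    have hy0 : 0 < ‖y‖ := norm_pos_iff.2 fun hc => hy0 hc
    have h5 : max ‖y‖ q < q' := max_lt hc hqq
    have h6 : 0 < max ‖y‖ q := lt_max_of_lt_left hy0
    rw [max_eq_right hc.le] at hy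
    simp only [Pi.zero_apply] at hy
    have h4 : (q' ^ (k + 1))⁻¹ < (max ‖y‖ q ^ (k + 1))⁻¹ := by gcongr
    linarith
  rw [ae_iff, Measure.restrict_apply' hm] at h3
  refine measure_mono_null ?_ h3
  rintro y ⟨hy1, hy2⟩
  exact ⟨fun hc => hc hy2, hy1⟩

/-- the open shell -/
def shell (n : ℕ) (r R : ℝ) : Set (E n) := {x | r < ‖x‖ ∧ ‖x‖ < R}

lemma shell_open (n : ℕ) (r R : ℝ) : IsOpen (shell n r R) :=
  (isOpen_lt continuous_const continuous_norm).inter (isOpen_lt continuous_norm continuous_const)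

lemma exists_norm {a : ℝ} (ha : 0 ≤ a) : ∃ x : E (k + 3), ‖x‖ = a := by
  let i : Fin (k + 3) := ⟨0, by omega⟩
  exact ⟨EuclideanSpace.single i a, by simp [abs_of_nonneg ha]⟩

lemma shell_pos {r R : ℝ} (hr : 0 ≤ r) (hrR : r < R) : 0 < volume (shell (k + 3) r R) := by
  obtain ⟨x, hx⟩ := exists_norm (k := k) (a := (r + R) / 2) (by linarith)
  exact (shell_open _ _ _).measure_pos volume ⟨x, by rw [hx]; linarith, by rw [hx]; linarith⟩

/-- first half of the classification -/
theorem cls (hA : volume A < ⊤) (hA0 : volume A ≠ 0) (hm : MeasurableSet A)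
    (hu : ∀ x, x ∉ A → u A x = volume.real A * (max ‖x‖ 1 ^ (k + 1))⁻¹) :
    (∃ R : ℝ, 1 ≤ R ∧ volume (A \ ball 0 R) = 0 ∧ volume (ball 0 R \ A) = 0) ∨
    (∃ r R : ℝ, 0 < r ∧ r ≤ 1 ∧ r < R ∧ volume (A \ shell (k + 3) r R) = 0 ∧
      volume (shell (k + 3) r R \ A) = 0) := by
  have hu' : ∀ x, x ∉ A → u A x = (fun q => volume.real A * (max q 1 ^ (k + 1))⁻¹) ‖x‖ := hu
  have hrad : ∀ x y : E (k + 3), ‖x‖ = ‖y‖ → u A x = u A y := fun x y h =>
    u_rad hA hm (m := fun q => volume.real A * (max q 1 ^ (k + 1))⁻¹) hu' h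
  have hUU : ∀ x, u A x = UU A ‖x‖ := u_eq_UU hA hrad
  have hmc : Continuous (fun x : E (k + 3) => volume.real A * (max ‖x‖ 1 ^ (k + 1))⁻¹) := by
    apply continuous_const.mul
    apply Continuous.inv₀ (by fun_prop)
    intro x
    have : 0 < max ‖x‖ 1 := lt_max_of_lt_right one_pos
    positivity
  -- the identity off the essential interior
  have hF : ∀ x, x ∉ Ess A → u A x = volume.real A * (max ‖x‖ 1 ^ (k + 1))⁻¹ := by
    intro x hx
    have hcl : IsClosed {x : E (k + 3) | u A x = volume.real A * (max ‖x‖ 1 ^ (k + 1))⁻¹} :=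
      isClosed_eq (u_cont hA) hmc
    have hsub : Aᶜ ⊆ {x : E (k + 3) | u A x = volume.real A * (max ‖x‖ 1 ^ (k + 1))⁻¹} :=
      fun x hx => hu x hx
    have hx2 : x ∈ closure (Aᶜ) := by
      rw [Metric.mem_closure_iff]
      intro ε hε
      have h1 : volume (ball x ε \ A) ≠ 0 := fun hc => hx ⟨ε, hε, hc⟩
      obtain ⟨y, hy⟩ := nonempty_of_measure_ne_zero h1
      exact ⟨y, hy.2, by rw [dist_comm]; exact hy.1⟩
    exact closure_minimal hsub hcl hx2
  have hEr : ∀ x y : E (k + 3), ‖x‖ = ‖y‖ → x ∈ Ess A → y ∈ Ess A := fun x y h hx =>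
    Ess_rad hA hm (m := fun q => volume.real A * (max q 1 ^ (k + 1))⁻¹) hu' h hx
  have hEo := Ess_open A
  have hEd := Ess_diff A
  -- outer radius
  set K : Set (E (k + 3)) := (Ess A)ᶜ ∩ {x | 1 ≤ ‖x‖} with hK
  have hKc : IsClosed K := hEo.isClosed_compl.inter (isClosed_le continuous_const continuous_norm)
  have hKn : K.Nonempty := by
    by_contra hc
    rw [not_nonempty_iff_eq_empty] at hc
    have h1 : (univ : Set (E (k + 3))) ⊆ ball 0 1 ∪ (A ∪ (Ess A \ A)) := by
      intro x _
      by_cases h2 : ‖x‖ < 1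
      · exact Or.inl (mem_ball_zero_iff.2 h2)
      · right
        have h3 : x ∈ Ess A := by
          by_contra h4
          have : x ∈ K := ⟨h4, not_lt.1 h2⟩
          rw [hc] at this
          exact this
        by_cases h5 : x ∈ A
        · exact Or.inl h5
        · exact Or.inr ⟨h3, h5⟩
    have h2 : volume (univ : Set (E (k + 3))) < ⊤ := by
      refine (measure_mono h1).trans_lt ((measure_union_le _ _).trans_lt ?_)
      refine ENNReal.add_lt_top.2 ⟨measure_ball_lt_top, (measure_union_le _ _).trans_lt ?_⟩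
      rw [hEd, add_zero]
      exact hA
    have : Nontrivial (E (k + 3)) := inferInstance
    rw [measure_univ_of_isAddLeftInvariant] at h2
    exact lt_irrefl _ h2
  obtain ⟨x₁, hx₁, hd₁⟩ := hKc.exists_infDist_eq_dist hKn 0
  set R := ‖x₁‖ with hR
  have hR1 : 1 ≤ R := hx₁.2
  have hmin : ∀ x, x ∉ Ess A → 1 ≤ ‖x‖ → R ≤ ‖x‖ := by
    intro x hx hx1
    have h1 : infDist 0 K ≤ dist 0 x := infDist_le_dist_of_mem ⟨hx, hx1⟩
    rw [hd₁, dist_zero_left, dist_zero_left] at h1
    exact h1
  have hout : volume (A \ closedBall 0 R) = 0 := by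
    apply lemA hA hm (by linarith)
    rw [hR, ← hUU, hF x₁ hx₁.1, max_eq_left hx₁.2]
  have hout' : volume (A \ ball 0 R) = 0 := by
    have h1 : A \ ball 0 R ⊆ (A \ closedBall 0 R) ∪ sphere 0 R := by
      rintro x ⟨hx1, hx2⟩
      by_cases h : x ∈ closedBall (0 : E (k + 3)) R
      · right
        rw [mem_sphere_zero_iff_norm]
        rw [mem_ball_zero_iff, not_lt] at hx2
        rw [mem_closedBall_zero_iff] at h
        exact le_antisymm h hx2
      · exact Or.inl ⟨hx1, h⟩
    refine measure_mono_null h1 (measure_union_null hout (Measure.addHaar_sphere _ _ _))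
  -- inner part
  set F1 : Set (E (k + 3)) := (Ess A)ᶜ ∩ closedBall 0 1 with hF1
  have hF1c : IsCompact F1 := (isCompact_closedBall 0 1).inter_left hEo.isClosed_compl
  have hmeasE : ∀ B : Set (E (k + 3)), B ⊆ Ess A → volume (B \ A) = 0 := fun B hB =>
    measure_mono_null (sdiff_subset_sdiff_left hB) hEd
  rcases F1.eq_empty_or_nonempty with he | hne
  · left
    refine ⟨R, hR1, hout', hmeasE _ ?_⟩
    intro x hx
    by_contra hc
    rw [mem_ball_zero_iff] at hx
    rcases le_total ‖x‖ 1 with h1 | h1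
    · have : x ∈ F1 := ⟨hc, mem_closedBall_zero_iff.2 h1⟩
      rw [he] at this
      exact this
    · exact absurd (hmin x hc h1) (not_le.2 hx)
  · obtain ⟨x₂, hx₂, hmax⟩ := hF1c.exists_isMaxOn hne continuous_norm.continuousOn
    set r := ‖x₂‖ with hr
    have hr1 : r ≤ 1 := mem_closedBall_zero_iff.1 hx₂.2
    have hmax' : ∀ x, x ∉ Ess A → ‖x‖ ≤ 1 → ‖x‖ ≤ r := fun x hx hx1 =>
      hmax (show x ∈ F1 from ⟨hx, mem_closedBall_zero_iff.2 hx1⟩)
    by_cases h3 : ∃ x₃, x₃ ∉ Ess A ∧ ‖x₃‖ < r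
    · obtain ⟨x₃, hx₃, hx₃r⟩ := h3
      right
      have hr0 : 0 < r := (norm_nonneg _).trans_lt hx₃r
      have hB : volume (A ∩ ball 0 r) = 0 := by
        apply lemB hA hm (norm_nonneg x₃) hx₃r
        rw [hr, ← hUU, ← hUU, hF x₃ hx₃, hF x₂ hx₂.1, max_eq_right (hx₃r.le.trans hr1),
          max_eq_right hr1]
      have hsh : volume (A \ shell (k + 3) r R) = 0 := by
        have h1 : A \ shell (k + 3) r R ⊆ (A ∩ ball 0 r) ∪ (sphere 0 r ∪ (A \ ball 0 R)) := by
          rintro x ⟨hx1, hx2⟩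
          by_cases h5 : ‖x‖ < r
          · exact Or.inl ⟨hx1, mem_ball_zero_iff.2 h5⟩
          · rcases (not_lt.1 h5).eq_or_lt with h6 | h6
            · exact Or.inr (Or.inl (mem_sphere_zero_iff_norm.2 h6.symm))
            · refine Or.inr (Or.inr ⟨hx1, fun hc => hx2 ⟨h6, mem_ball_zero_iff.1 hc⟩⟩)
        exact measure_mono_null h1 (measure_union_null hB
          (measure_union_null (Measure.addHaar_sphere _ _ _) hout'))
      have hrR : r < R := by
        by_contra hc
        push Not at hc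
        apply hA0
        have h1 : shell (k + 3) r R = ∅ := by
          ext x
          simp only [shell, mem_ofPred_eq, mem_empty_iff_false, iff_false, not_and, not_lt]
          intro h; linarith
        rw [h1, sdiff_empty] at hsh
        exact hsh
      refine ⟨r, R, hr0, hr1, hrR, hsh, hmeasE _ ?_⟩
      intro x hx
      by_contra hc
      rcases le_total ‖x‖ 1 with h1 | h1
      · exact absurd (hmax' x hc h1) (not_le.2 hx.1)
      · exact absurd (hmin x hc h1) (not_le.2 hx.2)
    · push Not at h3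
      left
      have hr2 : r = 1 := by
        by_contra hne1
        have hlt : r < 1 := lt_of_le_of_ne hr1 hne1
        apply hx₂.1
        refine ⟨1 - r, by linarith, ?_⟩
        have h1 : ball x₂ (1 - r) \ A ⊆ (Ess A \ A) ∪ sphere 0 r := by
          rintro x ⟨hx1, hx2⟩
          by_cases h4 : x ∈ Ess A
          · exact Or.inl ⟨h4, hx2⟩
          · right
            rw [mem_sphere_zero_iff_norm]
            rw [mem_ball, dist_eq_norm] at hx1
            have h5 : ‖x‖ ≤ 1 := by
              calc ‖x‖ = ‖(x - x₂) + x₂‖ := by rw [sub_add_cancel]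
                _ ≤ ‖x - x₂‖ + ‖x₂‖ := norm_add_le _ _
                _ ≤ 1 := by linarith
            exact le_antisymm (hmax' x h4 h5) (h3 x h4)
        exact measure_mono_null h1 (measure_union_null hEd (Measure.addHaar_sphere _ _ _))
      have hR2 : R = 1 := by
        apply le_antisymm _ hR1
        have := hmin x₂ hx₂.1 (by rw [← hr, hr2])
        rw [← hr, hr2] at this
        exact this
      refine ⟨R, hR1, hout', hmeasE _ ?_⟩
      intro x hx
      by_contra hc
      rw [mem_ball_zero_iff, hR2] at hx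
      have := h3 x hc
      linarith

end Pool.Agent.KS6_4.MV
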