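import Pool.Agent.KS6_4.MV.Cls

/-! # The classification -/

open MeasureTheory Metric Set Filter Topology
open scoped ENNReal

namespace Pool.Agent.KS6_4.MV

open Pool.Agent.Y767.PB

variable {k : ℕ} {A : Set (E (k + 3))}

lemma u_ball (x : E (k + 3)) {R : ℝ} (hR : 0 ≤ R) : u (ball 0 R) x = sg k * PP k ‖x‖ R := by
  unfold u
  simp_rw [N_eq]
  rw [ball_pot k x hR, sg]

lemma u_congr {B : Set (E (k + 3))} (h1 : volume (A \ B) = 0) (h2 : volume (B \ A) = 0)
    (x : E (k + 3)) : u A x = u B x := by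
  unfold u
  exact setIntegral_congr_set (ae_eq_set.2 ⟨h1, h2⟩)

lemma vol_congr {B : Set (E (k + 3))} (h1 : volume (A \ B) = 0) (h2 : volume (B \ A) = 0) :
    volume A = volume B := measure_congr (ae_eq_set.2 ⟨h1, h2⟩)

lemma shell_ae (r R : ℝ) :
    (shell (k + 3) r R : Set (E (k + 3))) =ᵐ[volume] (ball 0 R \ ball 0 r : Set (E (k + 3))) := by
  rw [ae_eq_set]
  constructor
  · have : shell (k + 3) r R \ (ball 0 R \ ball 0 r) = ∅ := by
      rw [eq_empty_iff_forall_notMem]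
      rintro x ⟨hx, hc⟩
      exact hc ⟨mem_ball_zero_iff.2 hx.2, fun h => not_lt.2 hx.1.le (mem_ball_zero_iff.1 h)⟩
    rw [this, measure_empty]
  · refine measure_mono_null ?_ (Measure.addHaar_sphere (volume : Measure (E (k + 3))) 0 r)
    rintro x ⟨⟨h1, h2⟩, h3⟩
    rw [mem_sphere_zero_iff_norm]
    rw [mem_ball_zero_iff] at h1 h2
    by_contra hc
    exact h3 ⟨lt_of_le_of_ne (not_lt.1 h2) (Ne.symm hc), h1⟩

lemma u_shell (x : E (k + 3)) {r R : ℝ} (hr : 0 ≤ r) (hrR : r ≤ R) :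
    u (shell (k + 3) r R) x = sg k * (PP k ‖x‖ R - PP k ‖x‖ r) := by
  have h1 : u (shell (k + 3) r R) x = ∫ y in (ball 0 R \ ball 0 r : Set (E (k + 3))), N (x - y) := by
    unfold u
    exact setIntegral_congr_set (shell_ae r R)
  rw [h1, setIntegral_sdiff measurableSet_ball (N_adm.integrable measure_ball_lt_top x)
    (ball_subset_ball hrR)]
  have h2 := u_ball x (hr.trans hrR)
  have h3 := u_ball x hr
  unfold u at h2 h3
  rw [h2, h3]
  ring

lemma vol_shell {r R : ℝ} (hr : 0 ≤ r) (hrR : r ≤ R) :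
    volume.real (shell (k + 3) r R) = sg k * (R ^ (k + 3) / (k + 3) - r ^ (k + 3) / (k + 3)) := by
  rw [measureReal_congr (shell_ae r R), measureReal_sdiff (ball_subset_ball hrR) measurableSet_ball,
    vol_ball_real 0 (hr.trans hrR), vol_ball_real 0 hr]
  ring

lemma bern {a : ℝ} (h0 : 0 ≤ a) (h1 : a ≠ 1) :
    1 + ((k:ℝ) + 3) / 2 * (a ^ 2 - 1) < a ^ (k + 3) := by
  have h3 : (3:ℝ) ≤ ((k + 3 : ℕ) : ℝ) := by push_cast; linarith [(Nat.cast_nonneg k : (0:ℝ) ≤ k)]
  have hne : a ^ 2 - 1 ≠ 0 := by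
    intro hc
    have : (a - 1) * (a + 1) = 0 := by ring_nf; ring_nf at hc; linarith
    rcases mul_eq_zero.1 this with h | h
    · exact h1 (by linarith)
    · linarith
  have hb := one_add_mul_self_lt_rpow_one_add (s := a ^ 2 - 1) (by nlinarith) hne
    (p := ((k + 3 : ℕ) : ℝ) / 2) (by linarith)
  have h4 : (1 + (a ^ 2 - 1)) ^ (((k + 3 : ℕ) : ℝ) / 2) = a ^ (k + 3) := by
    rw [show 1 + (a ^ 2 - 1) = a ^ 2 by ring, ← Real.rpow_natCast a 2,
      ← Real.rpow_mul h0, ← Real.rpow_natCast a (k + 3)]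
    congr 1
    push_cast
    ring
  rw [h4] at hb
  push_cast at hb
  exact hb

/-- the radii of a balanced shell are on both sides of `1` -/
lemma radii {r R : ℝ} (hr : 0 < r) (hrR : r < R)
    (h : ((k:ℝ) + 3) * (R ^ 2 - r ^ 2) = 2 * (R ^ (k + 3) - r ^ (k + 3))) : r < 1 ∧ 1 < R := by
  have hR : 0 < R := hr.trans hrR
  have hsq : 0 < R ^ 2 - r ^ 2 := by nlinarith
  constructor
  · by_contra hc
    push Not at hc
    -- `r ≥ 1`
    have h1 := bern (k := k) (a := R / r) (by positivity) ((one_lt_div hr).2 hrR).ne'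
    have h2 : 1 ≤ r ^ (k + 1) := one_le_pow₀ hc
    have h3 : (R / r) ^ (k + 3) = R ^ (k + 3) / (r ^ (k + 1) * r ^ 2) := by
      rw [div_pow, ← pow_add]
    have h4 : (1 + ((k:ℝ) + 3) / 2 * ((R / r) ^ 2 - 1)) * (r ^ (k + 1) * r ^ 2) =
        r ^ (k + 3) + ((k:ℝ) + 3) / 2 * (R ^ 2 - r ^ 2) * r ^ (k + 1) := by
      rw [div_pow]
      field_simp
      ring
    have h5 : 0 < r ^ (k + 1) * r ^ 2 := by positivity
    rw [h3, lt_div_iff₀ h5, h4] at h1
    have h6 : ((k:ℝ) + 3) / 2 * (R ^ 2 - r ^ 2) * 1 ≤ ((k:ℝ) + 3) / 2 * (R ^ 2 - r ^ 2) * r ^ (k + 1) := by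
      gcongr
    linarith
  · by_contra hc
    push Not at hc
    have h1 := bern (k := k) (a := r / R) (by positivity) ((div_lt_one hR).2 hrR).ne
    have h2 : R ^ (k + 1) ≤ 1 := pow_le_one₀ hR.le hc
    have h3 : (r / R) ^ (k + 3) = r ^ (k + 3) / (R ^ (k + 1) * R ^ 2) := by
      rw [div_pow, ← pow_add]
    have h4 : (1 + ((k:ℝ) + 3) / 2 * ((r / R) ^ 2 - 1)) * (R ^ (k + 1) * R ^ 2) =
        R ^ (k + 3) - ((k:ℝ) + 3) / 2 * (R ^ 2 - r ^ 2) * R ^ (k + 1) := by
      rw [div_pow]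
      field_simp
      ring
    have h5 : 0 < R ^ (k + 1) * R ^ 2 := by positivity
    rw [h3, lt_div_iff₀ h5, h4] at h1
    have h6 : ((k:ℝ) + 3) / 2 * (R ^ 2 - r ^ 2) * R ^ (k + 1) ≤ ((k:ℝ) + 3) / 2 * (R ^ 2 - r ^ 2) * 1 := by
      gcongr
    linarith

/-- points of the critical sphere lie in the unit ball -/
lemma crit_lt {R t : ℝ} (hR : 1 < R)
    (h : ((k:ℝ) + 1) * t ^ 2 = (k + 3) * R ^ 2 - 2 * R ^ (k + 3)) : t < 1 := by
  have h1 := bern (k := k) (a := R) (by linarith) hR.ne'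
  have hk : (0:ℝ) ≤ k := Nat.cast_nonneg k
  have h2 : ((k:ℝ) + 1) * t ^ 2 < (k + 1) * 1 := by rw [h]; nlinarith
  have h3 : t ^ 2 < 1 := lt_of_mul_lt_mul_left h2 (by positivity)
  nlinarith

/-- the identity at a point of the ball -/
lemma ball_point {R : ℝ} (hR : 1 ≤ R) {x : E (k + 3)} (hx : ‖x‖ < R) :
    sg k * PP k ‖x‖ R = sg k * (R ^ (k + 3) / (k + 3)) * (max ‖x‖ 1 ^ (k + 1))⁻¹ ↔
      ((k:ℝ) + 1) * ‖x‖ ^ 2 = (k + 3) * R ^ 2 - 2 * R ^ (k + 3) := by
  have hsg := sg_pos k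
  have hk : (0:ℝ) < (k:ℝ) + 3 := by positivity
  have h0 : sg k * PP k ‖x‖ R = sg k * (R ^ (k + 3) / (k + 3)) * (max ‖x‖ 1 ^ (k + 1))⁻¹ ↔
      PP k ‖x‖ R = R ^ (k + 3) / (k + 3) * (max ‖x‖ 1 ^ (k + 1))⁻¹ := by
    rw [mul_assoc]
    exact ⟨fun h => mul_left_cancel₀ hsg.ne' h, fun h => by rw [h]⟩
  rw [h0]
  have key : ‖x‖ ≤ 1 → (PP k ‖x‖ R = R ^ (k + 3) / (k + 3) * (max ‖x‖ 1 ^ (k + 1))⁻¹ ↔
      ((k:ℝ) + 1) * ‖x‖ ^ 2 = (k + 3) * R ^ 2 - 2 * R ^ (k + 3)) := by
    intro h1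
    rw [max_eq_right h1, one_pow, inv_one, mul_one, PP_in k (norm_nonneg x) hx.le]
    constructor
    · intro h
      field_simp at h
      linarith
    · intro h
      field_simp
      linarith
  by_cases h1 : ‖x‖ ≤ 1
  · exact key h1
  · push Not at h1
    constructor
    · intro h
      exfalso
      have h2 := Dk_pos (k := k) (one_pos.trans h1) hx
      unfold Dk at h2
      rw [max_eq_left h1.le] at h
      rw [h, sub_self] at h2
      exact lt_irrefl _ h2
    · intro h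
      exfalso
      rcases hR.eq_or_lt with h2 | h2
      · rw [← h2] at hx; linarith
      · linarith [crit_lt h2 h]

lemma crit_null {c : ℝ} {B : Set (E (k + 3))} (h : ∀ x ∈ B, ((k:ℝ) + 1) * ‖x‖ ^ 2 = c) :
    volume B = 0 := by
  have hsub : B ⊆ sphere (0 : E (k + 3)) (Real.sqrt (c / (k + 1))) := by
    intro x hx
    rw [mem_sphere_zero_iff_norm, ← h x hx]
    have hk : (0:ℝ) < (k:ℝ) + 1 := by positivity
    rw [show ((k:ℝ) + 1) * ‖x‖ ^ 2 / (k + 1) = ‖x‖ ^ 2 by field_simp, Real.sqrt_sq (norm_nonneg x)]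
  exact measure_mono_null hsub (Measure.addHaar_sphere _ _ _)

/-- the identity defining the mean value property -/
def HasId (A : Set (E (k + 3))) : Prop :=
  ∀ x, x ∉ A → u A x = volume.real A * (max ‖x‖ 1 ^ (k + 1))⁻¹

/-- the classification, in dimension `k + 3` -/
theorem classification (hm : MeasurableSet A) :
    (0 < volume A ∧ volume A < ⊤ ∧ HasId A) ↔
    ((∃ R : ℝ, 1 ≤ R ∧ volume (A \ ball 0 R) = 0 ∧
      ∀ x ∈ ball 0 R \ A, ((k:ℝ) + 1) * ‖x‖ ^ 2 = (k + 3) * R ^ 2 - 2 * R ^ (k + 3)) ∨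
    (∃ r R : ℝ, 0 < r ∧ r < R ∧ ((k:ℝ) + 3) * (R ^ 2 - r ^ 2) = 2 * (R ^ (k + 3) - r ^ (k + 3)) ∧
      volume (A \ shell (k + 3) r R) = 0 ∧ shell (k + 3) r R ⊆ A)) := by
  have hsg := sg_pos k
  have hk3 : (0:ℝ) < (k:ℝ) + 3 := by positivity
  constructor
  · rintro ⟨hA0, hA, hmv⟩
    rcases cls hA hA0.ne' hm hmv with ⟨R, hR1, h1, h2⟩ | ⟨r, R, hr0, hr1, hrR, h1, h2⟩
    · left
      refine ⟨R, hR1, h1, ?_⟩
      rintro x ⟨hx1, hx2⟩
      rw [mem_ball_zero_iff] at hx1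
      have h3 := hmv x hx2
      rw [u_congr h1 h2, u_ball x (by linarith), measureReal_def, vol_congr h1 h2,
        ← measureReal_def, vol_ball_real 0 (by linarith)] at h3
      exact (ball_point hR1 hx1).1 h3
    · right
      have hR0 : 0 < R := hr0.trans hrR
      have hAs : volume (A ∩ ball 0 r) = 0 := by
        refine measure_mono_null ?_ h1
        rintro x ⟨hx1, hx2⟩
        refine ⟨hx1, fun hc => ?_⟩
        rw [mem_ball_zero_iff] at hx2
        exact absurd hc.1 (not_lt.2 hx2.le)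
      -- a point of the hole
      obtain ⟨x₀, hx₀, hx₀A⟩ : ∃ x : E (k + 3), ‖x‖ < r ∧ x ∉ A := by
        by_contra hc
        push Not at hc
        have h3 : ball (0 : E (k + 3)) r ⊆ A ∩ ball 0 r := fun x hx =>
          ⟨hc x (mem_ball_zero_iff.1 hx), hx⟩
        exact (measure_ball_pos volume (0 : E (k + 3)) hr0).ne' (measure_mono_null h3 hAs)
      have hval : ∀ x, x ∉ A → sg k * (PP k ‖x‖ R - PP k ‖x‖ r) =
          sg k * (R ^ (k + 3) / (k + 3) - r ^ (k + 3) / (k + 3)) * (max ‖x‖ 1 ^ (k + 1))⁻¹ := by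
        intro x hx
        have h3 := hmv x hx
        rw [u_congr h1 h2, u_shell x hr0.le hrR.le, measureReal_def, vol_congr h1 h2,
          ← measureReal_def, vol_shell hr0.le hrR.le] at h3
        exact h3
      have heq : ((k:ℝ) + 3) * (R ^ 2 - r ^ 2) = 2 * (R ^ (k + 3) - r ^ (k + 3)) := by
        have h3 := hval x₀ hx₀A
        rw [max_eq_right (hx₀.le.trans hr1), one_pow, inv_one, mul_one,
          PP_in k (norm_nonneg _) hx₀.le, PP_in k (norm_nonneg _) (hx₀.trans hrR).le] at h3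
        have h4 := mul_left_cancel₀ hsg.ne' h3
        field_simp at h4
        linarith
      refine ⟨r, R, hr0, hrR, heq, h1, ?_⟩
      intro x hx
      by_contra hxA
      have h3 := hval x hxA
      rw [mul_assoc] at h3
      have h4 := mul_left_cancel₀ hsg.ne' h3
      rw [PP_in k (norm_nonneg _) hx.2.le, PP_out k hr0.le hx.1.le] at h4
      have hx0 : 0 < ‖x‖ := hr0.trans hx.1
      have D1 := Dk_pos (k := k) hx0 hx.2
      unfold Dk at D1
      rw [PP_in k (norm_nonneg _) hx.2.le] at D1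
      by_cases h5 : ‖x‖ ≤ 1
      · -- `PP_in - PP_out = (R^n - r^n)/n = (R² - r²)/2`
        rw [max_eq_right h5, one_pow, inv_one, mul_one] at h4
        have h6 : R ^ (k + 3) / ((k:ℝ) + 3) - r ^ (k + 3) / (k + 3) = (R ^ 2 - r ^ 2) / 2 := by
          field_simp
          linarith
        rw [h6] at h4
        -- `Dk`-type inequality for `r < ‖x‖`
        have h7 := bern (k := k) (a := r / ‖x‖) (by positivity) ((div_lt_one hx0).2 hx.1).ne
        have h8 : (r / ‖x‖) ^ (k + 3) * (‖x‖ ^ 2 / (k + 3)) =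
            (‖x‖ ^ (k + 1))⁻¹ * (r ^ (k + 3) / (k + 3)) := by
          rw [div_pow]
          field_simp
          ring
        have h9 : (1 + ((k:ℝ) + 3) / 2 * ((r / ‖x‖) ^ 2 - 1)) * (‖x‖ ^ 2 / (k + 3)) =
            ‖x‖ ^ 2 / (k + 3) + (r ^ 2 - ‖x‖ ^ 2) / 2 := by
          rw [div_pow]
          field_simp
        have h10 := mul_lt_mul_of_pos_right h7 (by positivity : 0 < ‖x‖ ^ 2 / ((k:ℝ) + 3))
        rw [h8, h9] at h10
        linarith
      · push Not at h5
        rw [max_eq_left h5.le] at h4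
        have h6 : (R ^ (k + 3) / ((k:ℝ) + 3) - r ^ (k + 3) / (k + 3)) * (‖x‖ ^ (k + 1))⁻¹ =
            R ^ (k + 3) / ((k:ℝ) + 3) * (‖x‖ ^ (k + 1))⁻¹ -
            (‖x‖ ^ (k + 1))⁻¹ * (r ^ (k + 3) / (k + 3)) := by ring
        rw [h6] at h4
        linarith
  · rintro (⟨R, hR1, h1, h2⟩ | ⟨r, R, hr0, hrR, heq, h1, h2⟩)
    · have h3 : volume (ball 0 R \ A) = 0 := crit_null h2
      have hv := vol_congr h1 h3
      refine ⟨?_, ?_, ?_⟩
      · rw [hv]; exact measure_ball_pos volume _ (by linarith)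
      · rw [hv]; exact measure_ball_lt_top
      · intro x hx
        rw [u_congr h1 h3, u_ball x (by linarith), measureReal_def, hv, ← measureReal_def,
          vol_ball_real 0 (by linarith)]
        by_cases h4 : ‖x‖ < R
        · exact (ball_point hR1 h4).2 (h2 x ⟨mem_ball_zero_iff.2 h4, hx⟩)
        · push Not at h4
          rw [PP_out k (by linarith) h4, max_eq_left (hR1.trans h4)]
          ring
    · obtain ⟨hr1, hR1⟩ := radii hr0 hrR heq
      have h3 : volume (shell (k + 3) r R \ A) = 0 := by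
        rw [sdiff_eq_empty.2 h2, measure_empty]
      have hv := vol_congr h1 h3
      refine ⟨?_, ?_, ?_⟩
      · rw [hv]; exact shell_pos hr0.le hrR
      · rw [hv]
        refine (measure_mono (?_ : shell (k + 3) r R ⊆ ball 0 R)).trans_lt measure_ball_lt_top
        intro x hx
        exact mem_ball_zero_iff.2 hx.2
      · intro x hx
        rw [u_congr h1 h3, u_shell x hr0.le hrR.le, measureReal_def, hv, ← measureReal_def,
          vol_shell hr0.le hrR.le]
        have h4 : ¬ (r < ‖x‖ ∧ ‖x‖ < R) := fun hc => hx (h2 hc)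
        by_cases h5 : ‖x‖ ≤ r
        · rw [max_eq_right (h5.trans hr1.le), one_pow, inv_one, mul_one,
            PP_in k (norm_nonneg _) h5, PP_in k (norm_nonneg _) (h5.trans hrR.le)]
          congr 1
          field_simp
          linarith
        · push Not at h5
          have h6 : R ≤ ‖x‖ := by
            by_contra hc
            push Not at hc
            exact h4 ⟨h5, hc⟩
          rw [PP_out k (by linarith) h6, PP_out k hr0.le h5.le, max_eq_left (hR1.le.trans h6)]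
          ring

end Pool.Agent.KS6_4.MV
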