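import Pool.Agent.KS6_4.MV.Fin

/-!
# MP_88aa81_an : all sets with the mean-value property

Complete classification, in every dimension `n ≥ 3`, of the measurable sets `A` with
`0 < λ(A) < ∞` whose normalised Newtonian potential agrees, off `A`, with that of the unit sphere;
in particular of the open ones (Q1), for which the answer is: annuli, and balls of radius
`1 < R < (n/2)^(1/(n-2))` minus a non-empty closed subset of one critical sphere.

The main point is radial symmetry, with no assumption on the boundary (which may have positive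
measure) and for unbounded sets: an angular derivative `v` of the potential is continuous, vanishes
off the essential interior of `A` (recurrence of small rotations on sets of positive measure), has
the mean value property in the essential interior and grows at most linearly; since
`λ ‖x‖² + (potential)` is a barrier of quadratic growth, strictly superharmonic in the mean there,
`v = 0`.
-/

open MeasureTheory Metric Set Filter Topology

namespace Pool.Agent.KS6_4.MV.Final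

open Pool.Agent.KS6_4.MV Pool.Agent.Y767.PB

/-- `M(x)`: the mean of `y ↦ ‖x - y‖ ^ (2 - n)` over the unit sphere of `ℝⁿ` with respect to
surface measure (normalised: this is an average). -/
noncomputable def sphereMean (n : ℕ) (x : EuclideanSpace ℝ (Fin n)) : ℝ :=
  ⨍ y : Metric.sphere (0 : EuclideanSpace ℝ (Fin n)) 1,
    ‖x - (y : EuclideanSpace ℝ (Fin n))‖ ^ (2 - (n : ℝ))
    ∂((volume : Measure (EuclideanSpace ℝ (Fin n))).toSphere)

/-- The mean-value property of a measurable set `A` with `0 < λ(A) < ∞`: at every point `x` outside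
`A` the mean over `A` of `y ↦ ‖x - y‖ ^ (2 - n)` equals its mean over the unit sphere. -/
def HasMeanValueProperty (n : ℕ) (A : Set (EuclideanSpace ℝ (Fin n))) : Prop :=
  MeasurableSet A ∧ 0 < volume A ∧ volume A < ⊤ ∧
    ∀ x, x ∉ A → (volume.real A)⁻¹ * (∫ y in A, ‖x - y‖ ^ (2 - (n : ℝ))) = sphereMean n x

/-- An annulus `{x : r₁ < ‖x‖ < r₂}`, with real numbers `r₁ < r₂`. -/
def IsAnnulus (n : ℕ) (A : Set (EuclideanSpace ℝ (Fin n))) : Prop :=
  ∃ r₁ r₂ : ℝ, r₁ < r₂ ∧ A = {x | r₁ < ‖x‖ ∧ ‖x‖ < r₂}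

lemma sphereMean_eq {k : ℕ} (x : E (k + 3)) : sphereMean (k + 3) x = (max ‖x‖ 1 ^ (k + 1))⁻¹ := by
  have hm : 0 < max ‖x‖ 1 := lt_max_of_lt_right one_pos
  have hS := sg_pos k
  have h1 : ∫ y : sphere (0 : E (k + 3)) 1, ‖x - (y : E (k + 3))‖ ^ (2 - ((k + 3 : ℕ) : ℝ))
      ∂((volume : Measure (E (k + 3))).toSphere) = sg k * (max ‖x‖ 1 ^ (k + 1))⁻¹ := by
    simp_rw [← N_eq]
    rw [integral_eq_lintegral_of_nonneg_ae, sphN, ENNReal.toReal_mul,
      ENNReal.toReal_ofReal (by positivity), sg]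
    · exact Eventually.of_forall fun y => N_nonneg _
    · exact (N_meas.comp (measurable_const.sub measurable_subtype_coe)).aestronglyMeasurable
  rw [sphereMean, average_eq, measureReal_def, sph_univ, h1, smul_eq_mul, ← sg, ← mul_assoc,
    inv_mul_cancel₀ hS.ne', one_mul]

lemma hasMVP_iff {k : ℕ} (A : Set (E (k + 3))) : HasMeanValueProperty (k + 3) A ↔
    MeasurableSet A ∧ (0 < volume A ∧ volume A < ⊤ ∧ HasId A) := by
  unfold HasMeanValueProperty
  refine and_congr_right fun _ => and_congr_right fun h0 => and_congr_right fun h1 => ?_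
  have hv : volume.real A ≠ 0 := (ENNReal.toReal_pos h0.ne' h1.ne).ne'
  have hu : ∀ x : E (k + 3), ∫ y in A, ‖x - y‖ ^ (2 - ((k + 3 : ℕ) : ℝ)) = u A x := by
    intro x
    unfold u
    simp_rw [N_eq]
  refine forall_congr' fun x => forall_congr' fun _ => ?_
  rw [hu, sphereMean_eq, inv_mul_eq_iff_eq_mul₀ hv]

lemma crit_lt_one {n : ℕ} (hn : 3 ≤ n) {R t : ℝ} (hR : 1 < R)
    (h : ((n : ℝ) - 2) * t ^ 2 = n * R ^ 2 - 2 * R ^ n) : t < 1 := by
  obtain ⟨k, rfl⟩ : ∃ k, n = k + 3 := ⟨n - 3, by omega⟩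
  push_cast at h
  exact crit_lt hR (by linarith)

/-- (1) all measurable sets -/
theorem measurable_case (n : ℕ) (hn : 3 ≤ n) (A : Set (EuclideanSpace ℝ (Fin n))) :
    HasMeanValueProperty n A ↔ MeasurableSet A ∧
      ((∃ R : ℝ, 1 ≤ R ∧ volume (A \ ball 0 R) = 0 ∧
        ∀ x ∈ ball 0 R \ A, ((n : ℝ) - 2) * ‖x‖ ^ 2 = n * R ^ 2 - 2 * R ^ n) ∨
      (∃ r R : ℝ, 0 < r ∧ r < R ∧ n * (R ^ 2 - r ^ 2) = 2 * (R ^ n - r ^ n) ∧
        volume (A \ {x | r < ‖x‖ ∧ ‖x‖ < R}) = 0 ∧ {x | r < ‖x‖ ∧ ‖x‖ < R} ⊆ A)) := by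
  obtain ⟨k, rfl⟩ : ∃ k, n = k + 3 := ⟨n - 3, by omega⟩
  rw [hasMVP_iff]
  refine and_congr_right fun hm => ?_
  rw [classification hm]
  push_cast
  have e : ((k : ℝ) + 3 - 2) = k + 1 := by ring
  rw [e]
  rfl

/-- (2) open sets -/
theorem open_case (n : ℕ) (hn : 3 ≤ n) (Ω : Set (EuclideanSpace ℝ (Fin n))) (hΩ : IsOpen Ω) :
    HasMeanValueProperty n Ω ↔
      ((∃ (R : ℝ) (F : Set (EuclideanSpace ℝ (Fin n))), 1 ≤ R ∧ IsClosed F ∧
        (∀ x ∈ F, ((n : ℝ) - 2) * ‖x‖ ^ 2 = n * R ^ 2 - 2 * R ^ n) ∧ Ω = ball 0 R \ F) ∨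
      (∃ r R : ℝ, 0 < r ∧ r < R ∧ n * (R ^ 2 - r ^ 2) = 2 * (R ^ n - r ^ n) ∧
        Ω = {x | r < ‖x‖ ∧ ‖x‖ < R})) := by
  rw [measurable_case n hn]
  have hopen : ∀ C : Set (EuclideanSpace ℝ (Fin n)), IsClosed C → volume (Ω \ C) = 0 → Ω ⊆ C := by
    intro C hC h0
    have h1 := (hΩ.sdiff hC).measure_eq_zero_iff volume |>.1 h0
    exact sdiff_eq_empty.1 h1
  have hcritc : ∀ c : ℝ, IsClosed {x : EuclideanSpace ℝ (Fin n) | ((n : ℝ) - 2) * ‖x‖ ^ 2 = c} :=
    fun c => isClosed_eq (by fun_prop) continuous_const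
  have hn0 : Nontrivial (EuclideanSpace ℝ (Fin n)) := by
    obtain ⟨k, rfl⟩ : ∃ k, n = k + 3 := ⟨n - 3, by omega⟩
    infer_instance
  constructor
  · rintro ⟨-, ⟨R, hR, h1, h2⟩ | ⟨r, R, hr, hrR, heq, h1, h2⟩⟩
    · left
      have h3 : Ω ⊆ closedBall 0 R := hopen _ isClosed_closedBall
        (measure_mono_null (sdiff_subset_sdiff_right ball_subset_closedBall) h1)
      have h4 : Ω ⊆ ball 0 R := by
        rw [← interior_closedBall (0 : EuclideanSpace ℝ (Fin n)) (by linarith : R ≠ 0)]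
        exact hΩ.subset_interior_iff.2 h3
      refine ⟨R, {x | ((n : ℝ) - 2) * ‖x‖ ^ 2 = n * R ^ 2 - 2 * R ^ n} \ Ω, hR,
        (hcritc _).sdiff hΩ, fun x hx => hx.1, ?_⟩
      ext x
      constructor
      · intro hx
        exact ⟨h4 hx, fun hc => hc.2 hx⟩
      · rintro ⟨hx1, hx2⟩
        by_contra hc
        exact hx2 ⟨h2 x ⟨hx1, hc⟩, hc⟩
    · right
      refine ⟨r, R, hr, hrR, heq, subset_antisymm ?_ h2⟩
      have h3 : Ω ⊆ closedBall 0 R := by
        apply hopen _ isClosed_closedBall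
        refine measure_mono_null (sdiff_subset_sdiff_right ?_) h1
        intro x hx
        exact mem_closedBall_zero_iff.2 hx.2.le
      have h4 : Ω ⊆ ball 0 R := by
        rw [← interior_closedBall (0 : EuclideanSpace ℝ (Fin n)) (by linarith : R ≠ 0)]
        exact hΩ.subset_interior_iff.2 h3
      have h5 : Ω ⊆ (ball 0 r)ᶜ := by
        apply hopen _ isOpen_ball.isClosed_compl
        refine measure_mono_null (sdiff_subset_sdiff_right ?_) h1
        intro x hx hc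
        exact absurd (mem_ball_zero_iff.1 hc) (not_lt.2 hx.1.le)
      have h6 : Ω ⊆ (closedBall 0 r)ᶜ := by
        have h7 := hΩ.subset_interior_iff.2 h5
        rw [interior_compl, closure_ball (0 : EuclideanSpace ℝ (Fin n)) hr.ne'] at h7
        exact h7
      intro x hx
      refine ⟨?_, mem_ball_zero_iff.1 (h4 hx)⟩
      by_contra hc
      exact h6 hx (mem_closedBall_zero_iff.2 (not_lt.1 hc))
  · rintro (⟨R, F, hR, hF, h1, rfl⟩ | ⟨r, R, hr, hrR, heq, rfl⟩)
    · refine ⟨measurableSet_ball.diff hF.measurableSet, Or.inl ⟨R, hR, ?_, ?_⟩⟩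
      · have : (ball (0 : EuclideanSpace ℝ (Fin n)) R \ F) \ ball 0 R = ∅ :=
          sdiff_eq_empty.2 sdiff_subset
        rw [this, measure_empty]
      · rintro x ⟨hx1, hx2⟩
        apply h1
        by_contra hc
        exact hx2 ⟨hx1, hc⟩
    · refine ⟨hΩ.measurableSet, Or.inr ⟨r, R, hr, hrR, heq, ?_, subset_rfl⟩⟩
      rw [sdiff_self, measure_empty]

/-- (3) the open sets with the mean-value property that are not annuli -/
theorem exceptional (n : ℕ) (hn : 3 ≤ n) (Ω : Set (EuclideanSpace ℝ (Fin n))) (hΩ : IsOpen Ω) :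
    (HasMeanValueProperty n Ω ∧ ¬ IsAnnulus n Ω) ↔
      ∃ (R : ℝ) (F : Set (EuclideanSpace ℝ (Fin n))), 1 < R ∧ 2 * R ^ n < n * R ^ 2 ∧ IsClosed F ∧
        F.Nonempty ∧ (∀ x ∈ F, ((n : ℝ) - 2) * ‖x‖ ^ 2 = n * R ^ 2 - 2 * R ^ n) ∧
        Ω = ball 0 R \ F := by
  have h3 : (3 : ℝ) ≤ n := by exact_mod_cast hn
  constructor
  · rintro ⟨hmv, hann⟩
    rcases (open_case n hn Ω hΩ).1 hmv with ⟨R, F, hR, hF, h1, h2⟩ | ⟨r, R, hr, hrR, heq, h2⟩
    · have hball : Ω ≠ ball 0 R := by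
        intro hc
        apply hann
        refine ⟨-1, R, by linarith, ?_⟩
        rw [hc]
        ext x
        rw [mem_ball_zero_iff]
        exact ⟨fun h => ⟨by linarith [norm_nonneg x], h⟩, fun h => h.2⟩
      have hR1 : 1 < R := by
        refine lt_of_le_of_ne hR fun hc => hball ?_
        rw [h2]
        ext x
        refine ⟨fun h => h.1, fun h => ⟨h, fun hx => ?_⟩⟩
        have h4 := h1 x hx
        rw [← hc] at h4 h
        rw [mem_ball_zero_iff] at h
        have h5 : ((n : ℝ) - 2) * ‖x‖ ^ 2 = (n - 2) * 1 := by rw [h4]; ring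
        have h6 := mul_left_cancel₀ (by linarith : (n : ℝ) - 2 ≠ 0) h5
        nlinarith [norm_nonneg x]
      have hFn : F.Nonempty := by
        by_contra hc
        rw [not_nonempty_iff_eq_empty] at hc
        exact hball (by rw [h2, hc, sdiff_empty])
      refine ⟨R, F, hR1, ?_, hF, hFn, h1, h2⟩
      by_contra hc
      push Not at hc
      have hF0 : F = {0} := by
        apply subset_antisymm
        · intro x hx
          have h4 := h1 x hx
          have h5 : ((n : ℝ) - 2) * ‖x‖ ^ 2 ≤ 0 := by linarith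
          have h6 : ‖x‖ ^ 2 ≤ 0 := by
            by_contra h7
            push Not at h7
            have : 0 < ((n : ℝ) - 2) * ‖x‖ ^ 2 := mul_pos (by linarith) h7
            linarith
          have h7 : ‖x‖ = 0 := by nlinarith [norm_nonneg x, sq_nonneg ‖x‖]
          exact norm_eq_zero.1 h7
        · obtain ⟨x, hx⟩ := hFn
          have h4 := h1 x hx
          have h5 : ((n : ℝ) - 2) * ‖x‖ ^ 2 ≤ 0 := by linarith
          have h6 : ‖x‖ ^ 2 ≤ 0 := by
            by_contra h7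
            push Not at h7
            have : 0 < ((n : ℝ) - 2) * ‖x‖ ^ 2 := mul_pos (by linarith) h7
            linarith
          have h7 : ‖x‖ = 0 := by nlinarith [norm_nonneg x, sq_nonneg ‖x‖]
          rw [singleton_subset_iff, ← norm_eq_zero.1 h7]
          exact hx
      apply hann
      refine ⟨0, R, by linarith, ?_⟩
      rw [h2, hF0]
      ext x
      constructor
      · rintro ⟨hx1, hx2⟩
        exact ⟨norm_pos_iff.2 hx2, mem_ball_zero_iff.1 hx1⟩
      · rintro ⟨hx1, hx2⟩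
        exact ⟨mem_ball_zero_iff.2 hx2, norm_pos_iff.1 hx1⟩
    · exact absurd ⟨r, R, hrR, h2⟩ hann
  · rintro ⟨R, F, hR1, h2R, hF, ⟨p, hp⟩, h1, h2⟩
    refine ⟨(open_case n hn Ω hΩ).2 (Or.inl ⟨R, F, hR1.le, hF, h1, h2⟩), ?_⟩
    rintro ⟨r₁, r₂, -, h⟩
    rw [h2] at h
    let i : Fin n := ⟨0, by omega⟩
    have hz : (0 : EuclideanSpace ℝ (Fin n)) ∈ ball (0 : EuclideanSpace ℝ (Fin n)) R \ F := by
      refine ⟨mem_ball_self (by linarith), fun h0 => ?_⟩
      have h4 := h1 0 h0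
      rw [norm_zero, zero_pow two_ne_zero, mul_zero] at h4
      linarith
    have hn1 : ‖(EuclideanSpace.single i (1 : ℝ) : EuclideanSpace ℝ (Fin n))‖ = 1 := by simp
    have hq : (EuclideanSpace.single i (1 : ℝ) : EuclideanSpace ℝ (Fin n)) ∈
        ball (0 : EuclideanSpace ℝ (Fin n)) R \ F := by
      refine ⟨by rw [mem_ball_zero_iff, hn1]; exact hR1, fun h0 => ?_⟩
      have h4 := crit_lt_one hn hR1 (h1 _ h0)
      rw [hn1] at h4
      exact lt_irrefl _ h4
    rw [h] at hz hq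
    have hpn : ‖p‖ < 1 := crit_lt_one hn hR1 (h1 p hp)
    have hz1 : r₁ < ‖(0 : EuclideanSpace ℝ (Fin n))‖ := hz.1
    rw [norm_zero] at hz1
    have hq2 : ‖(EuclideanSpace.single i (1 : ℝ) : EuclideanSpace ℝ (Fin n))‖ < r₂ := hq.2
    rw [hn1] at hq2
    have hpm : p ∈ ball (0 : EuclideanSpace ℝ (Fin n)) R \ F := by
      rw [h]
      exact ⟨lt_of_lt_of_le hz1 (norm_nonneg p), hpn.trans hq2⟩
    exact hpm.2 hp

/-- there are exceptional sets in every dimension -/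
theorem exists_exceptional (n : ℕ) (hn : 3 ≤ n) :
    ∃ Ω : Set (EuclideanSpace ℝ (Fin n)), IsOpen Ω ∧ HasMeanValueProperty n Ω ∧ ¬ IsAnnulus n Ω := by
  have h3 : (3 : ℝ) ≤ n := by exact_mod_cast hn
  obtain ⟨R, hR1, hR2⟩ : ∃ R : ℝ, 1 < R ∧ 2 * R ^ n < n * R ^ 2 := by
    have hc : Tendsto (fun R : ℝ => n * R ^ 2 - 2 * R ^ n) (𝓝[>] 1)
        (𝓝 (n * (1 : ℝ) ^ 2 - 2 * (1 : ℝ) ^ n)) := by
      apply Tendsto.mono_left _ nhdsWithin_le_nhds
      exact (by fun_prop : Continuous fun R : ℝ => n * R ^ 2 - 2 * R ^ n).tendsto 1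
    have hp : (0 : ℝ) < n * (1 : ℝ) ^ 2 - 2 * (1 : ℝ) ^ n := by
      rw [one_pow, one_pow]; linarith
    obtain ⟨R, hR, hR'⟩ := ((hc.eventually (lt_mem_nhds hp)).and self_mem_nhdsWithin).exists
    exact ⟨R, hR', by linarith⟩
  have hc0 : 0 ≤ ((n : ℝ) * R ^ 2 - 2 * R ^ n) / (n - 2) :=
    div_nonneg (by linarith) (by linarith)
  let i : Fin n := ⟨0, by omega⟩
  set p : EuclideanSpace ℝ (Fin n) :=
    EuclideanSpace.single i (Real.sqrt (((n : ℝ) * R ^ 2 - 2 * R ^ n) / (n - 2))) with hp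
  have hpn : ‖p‖ ^ 2 = ((n : ℝ) * R ^ 2 - 2 * R ^ n) / (n - 2) := by
    rw [hp, PiLp.norm_single, Real.norm_of_nonneg (Real.sqrt_nonneg _), Real.sq_sqrt hc0]
  have h20 : (n : ℝ) - 2 ≠ 0 := by linarith
  have ho : IsOpen (ball (0 : EuclideanSpace ℝ (Fin n)) R \ {p}) :=
    isOpen_ball.sdiff isClosed_singleton
  obtain ⟨h1, h2⟩ := (exceptional n hn _ ho).2 ⟨R, {p}, hR1, hR2, isClosed_singleton,
    singleton_nonempty p, by
      intro x hx
      rw [mem_singleton_iff.1 hx, hpn]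
      field_simp, rfl⟩
  exact ⟨_, ho, h1, h2⟩

/-- **All sets with the mean-value property.** Let `n ≥ 3`.
(1) A set `A` has the mean-value property if and only if it is measurable and either, for some
`R ≥ 1`, it is contained up to a null set in the ball of radius `R` and the points of this ball that
are not in `A` all lie on the sphere `(n - 2) ‖x‖² = n R² - 2 Rⁿ`, or, for some `0 < r < R` with
`n (R² - r²) = 2 (Rⁿ - rⁿ)`, it contains `{r < ‖x‖ < R}` and the difference is a null set.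
(2) The open sets with the mean-value property are exactly the sets `{‖x‖ < R} \ F` with `R ≥ 1`
and `F` a (possibly empty) closed part of the sphere `(n - 2) ‖x‖² = n R² - 2 Rⁿ`, and the annuli
`{r < ‖x‖ < R}` with `0 < r < R` and `n (R² - r²) = 2 (Rⁿ - rⁿ)`.
(3) Those that are not annuli are exactly the sets `{‖x‖ < R} \ F` with `R > 1`, `2 Rⁿ < n R²`,
and `F` a non-empty closed part of that sphere. Such sets exist, so Q1 has a negative answer in
every dimension. -/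
theorem result (n : ℕ) (hn : 3 ≤ n) :
    (∀ A : Set (EuclideanSpace ℝ (Fin n)), HasMeanValueProperty n A ↔ MeasurableSet A ∧
      ((∃ R : ℝ, 1 ≤ R ∧ volume (A \ ball 0 R) = 0 ∧
        ∀ x ∈ ball 0 R \ A, ((n : ℝ) - 2) * ‖x‖ ^ 2 = n * R ^ 2 - 2 * R ^ n) ∨
      (∃ r R : ℝ, 0 < r ∧ r < R ∧ n * (R ^ 2 - r ^ 2) = 2 * (R ^ n - r ^ n) ∧
        volume (A \ {x | r < ‖x‖ ∧ ‖x‖ < R}) = 0 ∧ {x | r < ‖x‖ ∧ ‖x‖ < R} ⊆ A))) ∧
    (∀ Ω : Set (EuclideanSpace ℝ (Fin n)), IsOpen Ω → (HasMeanValueProperty n Ω ↔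
      ((∃ (R : ℝ) (F : Set (EuclideanSpace ℝ (Fin n))), 1 ≤ R ∧ IsClosed F ∧
        (∀ x ∈ F, ((n : ℝ) - 2) * ‖x‖ ^ 2 = n * R ^ 2 - 2 * R ^ n) ∧ Ω = ball 0 R \ F) ∨
      (∃ r R : ℝ, 0 < r ∧ r < R ∧ n * (R ^ 2 - r ^ 2) = 2 * (R ^ n - r ^ n) ∧
        Ω = {x | r < ‖x‖ ∧ ‖x‖ < R})))) ∧
    (∀ Ω : Set (EuclideanSpace ℝ (Fin n)), IsOpen Ω →
      ((HasMeanValueProperty n Ω ∧ ¬ IsAnnulus n Ω) ↔
        ∃ (R : ℝ) (F : Set (EuclideanSpace ℝ (Fin n))), 1 < R ∧ 2 * R ^ n < n * R ^ 2 ∧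
          IsClosed F ∧ F.Nonempty ∧
          (∀ x ∈ F, ((n : ℝ) - 2) * ‖x‖ ^ 2 = n * R ^ 2 - 2 * R ^ n) ∧ Ω = ball 0 R \ F)) ∧
    (∃ Ω : Set (EuclideanSpace ℝ (Fin n)), IsOpen Ω ∧ HasMeanValueProperty n Ω ∧
      ¬ IsAnnulus n Ω) :=
  ⟨measurable_case n hn, open_case n hn, exceptional n hn, exists_exceptional n hn⟩

end Pool.Agent.KS6_4.MV.Final
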