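import Pool.Graph.R_seed8.Y767.PB.Sph

/-! # Kernels with a weak singularity and their potentials -/

open MeasureTheory Metric Set Filter Topology
open scoped ENNReal

namespace Pool.Agent.KS6_4.MV

open Pool.Agent.Y767.PB

variable {k : ℕ}

/-- the area of the unit sphere -/
noncomputable def sg (k : ℕ) : ℝ := (SS k).toReal

lemma sg_pos (k : ℕ) : 0 < sg k := ENNReal.toReal_pos (SS_ne_zero k) (SS_ne_top k)

/-- a majorant of the kernels -/
noncomputable def Th (t : E (k + 3)) : ℝ := (min ‖t‖ 1 ^ (k + 2))⁻¹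

lemma Th_nonneg (t : E (k + 3)) : 0 ≤ Th t := by
  unfold Th
  have : 0 ≤ min ‖t‖ 1 := le_min (norm_nonneg _) zero_le_one
  positivity

lemma Th_meas : Measurable (Th (k := k)) := by
  unfold Th
  fun_prop

lemma Th_neg (t : E (k + 3)) : Th (-t) = Th t := by
  unfold Th; rw [norm_neg]

lemma lint_Th_ball {δ : ℝ} (h0 : 0 ≤ δ) (h1 : δ ≤ 1) :
    ∫⁻ y in ball (0 : E (k + 3)) δ, ENNReal.ofReal (Th y) = SS k * ENNReal.ofReal δ := by
  have e1 : ∫⁻ y in ball (0 : E (k + 3)) δ, ENNReal.ofReal (Th y) =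
      ∫⁻ y : E (k + 3), (fun q : ℝ => ENNReal.ofReal ((min q 1 ^ (k + 2))⁻¹) *
        (Iio δ).indicator 1 q) ‖y‖ := by
    rw [ball_ind]
    rfl
  have hm : Measurable (fun q : ℝ => ENNReal.ofReal ((min q 1 ^ (k + 2))⁻¹) *
      (Iio δ).indicator (1 : ℝ → ℝ≥0∞) q) := by
    apply Measurable.mul _ (ind_meas δ)
    fun_prop
  rw [e1, vol_w k hm]
  congr 1
  have e2 : ∫⁻ q in Ioi (0:ℝ), ENNReal.ofReal (q ^ (k + 2)) *
      (ENNReal.ofReal ((min q 1 ^ (k + 2))⁻¹) * (Iio δ).indicator 1 q) =
      ∫⁻ q in Ioi (0:ℝ), ENNReal.ofReal ((fun _ => (1:ℝ)) q) * (Iio δ).indicator 1 q := by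
    apply setLIntegral_congr_fun measurableSet_Ioi
    intro q hq
    have hq' : (0:ℝ) < q := hq
    simp only
    by_cases h : q < δ
    · rw [indicator_of_mem (show q ∈ Iio δ from h), min_eq_left (h.le.trans h1), ← mul_assoc,
        ← ENNReal.ofReal_mul (by positivity)]
      have : q ^ (k + 2) * (q ^ (k + 2))⁻¹ = 1 := mul_inv_cancel₀ (by positivity)
      rw [this]
    · rw [indicator_of_notMem (show q ∉ Iio δ from h)]
      simp
  rw [e2, ind_int h0 continuousOn_const (fun _ _ => zero_le_one)]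
  simp

lemma lint_Th_ball' (z : E (k + 3)) {δ : ℝ} (h0 : 0 ≤ δ) (h1 : δ ≤ 1) :
    ∫⁻ y in ball z δ, ENNReal.ofReal (Th (z - y)) = SS k * ENNReal.ofReal δ := by
  rw [← lint_Th_ball h0 h1]
  have hmp : MeasurePreserving (fun y : E (k + 3) => z - y) := Measure.measurePreserving_sub_left _ z
  have e : (fun y : E (k + 3) => z - y) ⁻¹' ball (0 : E (k + 3)) δ = ball z δ := by
    ext y
    simp [dist_eq_norm, norm_sub_rev]
  rw [← e]
  exact hmp.setLIntegral_comp_preimage measurableSet_ball (ENNReal.measurable_ofReal.comp Th_meas)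

/-- the uniform bound of the potentials of the majorant -/
noncomputable def CC (A : Set (E (k + 3))) : ℝ≥0∞ := SS k + volume A

lemma CC_lt_top {A : Set (E (k + 3))} (hA : volume A < ⊤) : CC A < ⊤ :=
  ENNReal.add_lt_top.2 ⟨(SS_ne_top k).lt_top, hA⟩

lemma lint_Th_le (A : Set (E (k + 3))) (z : E (k + 3)) :
    ∫⁻ y in A, ENNReal.ofReal (Th (z - y)) ≤ CC A := by
  have h1 : ∀ y : E (k + 3), ENNReal.ofReal (Th (z - y)) ≤
      (ball z 1).indicator (fun y => ENNReal.ofReal (Th (z - y))) y + 1 := by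
    intro y
    by_cases h : y ∈ ball z 1
    · rw [indicator_of_mem h]; exact le_self_add
    · rw [indicator_of_notMem h, zero_add, ← ENNReal.ofReal_one]
      apply ENNReal.ofReal_le_ofReal
      have h2 : 1 ≤ ‖z - y‖ := by
        rw [mem_ball, dist_eq_norm, norm_sub_rev, not_lt] at h
        exact h
      unfold Th
      rw [min_eq_right h2]
      simp
  have hm : Measurable (fun y : E (k + 3) => ENNReal.ofReal (Th (z - y))) :=
    ENNReal.measurable_ofReal.comp (Th_meas.comp (measurable_const.sub measurable_id))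
  calc ∫⁻ y in A, ENNReal.ofReal (Th (z - y))
      ≤ ∫⁻ y in A, ((ball z 1).indicator (fun y => ENNReal.ofReal (Th (z - y))) y + 1) :=
        lintegral_mono h1
    _ = (∫⁻ y in A, (ball z 1).indicator (fun y => ENNReal.ofReal (Th (z - y))) y) +
        ∫⁻ y in A, 1 := lintegral_add_left (hm.indicator measurableSet_ball) _
    _ ≤ (∫⁻ y, (ball z 1).indicator (fun y => ENNReal.ofReal (Th (z - y))) y) + volume A := by
        gcongr
        · exact Measure.restrict_le_self
        · rw [setLIntegral_one]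
    _ = CC A := by
        rw [lintegral_indicator measurableSet_ball, lint_Th_ball' z zero_le_one le_rfl]
        simp [CC]

lemma Th_sub_meas (z : E (k + 3)) : Measurable (fun y => Th (z - y)) :=
  Th_meas.comp (measurable_const.sub measurable_id)

lemma integrable_Th {A : Set (E (k + 3))} (hA : volume A < ⊤) (z : E (k + 3)) :
    IntegrableOn (fun y => Th (z - y)) A := by
  refine ⟨(Th_meas.comp (measurable_const.sub measurable_id)).aestronglyMeasurable, ?_⟩
  rw [hasFiniteIntegral_iff_ofReal (Eventually.of_forall fun y => Th_nonneg _)]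
  exact (lint_Th_le A z).trans_lt (CC_lt_top hA)

lemma int_Th_le {A : Set (E (k + 3))} (hA : volume A < ⊤) (z : E (k + 3)) :
    ∫ y in A, Th (z - y) ≤ (CC A).toReal := by
  rw [integral_eq_lintegral_of_nonneg_ae (Eventually.of_forall fun y => Th_nonneg _)
    (Th_sub_meas z).aestronglyMeasurable]
  exact ENNReal.toReal_mono (CC_lt_top hA).ne (lint_Th_le A z)

lemma int_Th_ball (z : E (k + 3)) {δ : ℝ} (h0 : 0 ≤ δ) (h1 : δ ≤ 1) :
    ∫ y in ball z δ, Th (z - y) = sg k * δ := by
  rw [integral_eq_lintegral_of_nonneg_ae (Eventually.of_forall fun y => Th_nonneg _)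
    (Th_sub_meas z).aestronglyMeasurable,
    lint_Th_ball' z h0 h1, ENNReal.toReal_mul, ENNReal.toReal_ofReal h0, sg]

section general

variable {F : Type*} [NormedAddCommGroup F] [NormedSpace ℝ F]

/-- an admissible kernel -/
structure Adm (g : E (k + 3) → F) : Prop where
  meas : AEStronglyMeasurable g volume
  cont : ∀ t, t ≠ 0 → ContinuousAt g t
  bound : ∀ t, ‖g t‖ ≤ Th t

lemma Adm.aesm {g : E (k + 3) → F} (hg : Adm g) (z : E (k + 3)) :
    AEStronglyMeasurable (fun y => g (z - y)) volume :=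
  hg.meas.comp_quasiMeasurePreserving (Measure.measurePreserving_sub_left _ z).quasiMeasurePreserving

lemma Adm.integrable {g : E (k + 3) → F} (hg : Adm g) {A : Set (E (k + 3))} (hA : volume A < ⊤)
    (z : E (k + 3)) : IntegrableOn (fun y => g (z - y)) A :=
  (integrable_Th hA z).mono' (hg.aesm z).restrict (Eventually.of_forall fun y => hg.bound _)

lemma Adm.norm_le {g : E (k + 3) → F} (hg : Adm g) {A : Set (E (k + 3))} (hA : volume A < ⊤)
    (z : E (k + 3)) : ‖∫ y in A, g (z - y)‖ ≤ (CC A).toReal :=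
  (norm_integral_le_of_norm_le (integrable_Th hA z)
    (Eventually.of_forall fun y => hg.bound _)).trans (int_Th_le hA z)

/-- the cutoff -/
noncomputable def cut (δ : ℝ) (t : E (k + 3)) : ℝ := min (‖t‖ / δ) 1 ^ (k + 3)

lemma cut_le_one {δ : ℝ} (hδ : 0 < δ) (t : E (k + 3)) : cut δ t ≤ 1 := by
  unfold cut
  exact pow_le_one₀ (le_min (by positivity) zero_le_one) (min_le_right _ _)

lemma cut_nonneg {δ : ℝ} (hδ : 0 < δ) (t : E (k + 3)) : 0 ≤ cut δ t := by
  unfold cut
  exact pow_nonneg (le_min (by positivity) zero_le_one) _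

lemma cut_eq_one {δ : ℝ} (hδ : 0 < δ) {t : E (k + 3)} (h : δ ≤ ‖t‖) : cut δ t = 1 := by
  unfold cut
  rw [min_eq_right ((one_le_div hδ).2 h), one_pow]

lemma cut_cont (δ : ℝ) : Continuous (cut (k := k) δ) := by
  unfold cut
  fun_prop

/-- bound of the cut kernel near the origin -/
lemma cut_Th {δ : ℝ} (hδ : 0 < δ) (h1 : δ ≤ 1) {t : E (k + 3)} (h : ‖t‖ ≤ δ) :
    cut δ t * Th t ≤ ‖t‖ / δ ^ (k + 3) := by
  unfold cut Th
  rw [min_eq_left ((div_le_one hδ).2 h), min_eq_left (h.trans h1)]
  rcases (norm_nonneg t).eq_or_lt with h0 | h0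
  · rw [← h0]; simp
  · rw [div_pow, pow_succ ‖t‖ (k + 2)]
    have : ‖t‖ ^ (k + 2) ≠ 0 := by positivity
    rw [div_mul_eq_mul_div, mul_right_comm, mul_inv_cancel₀ this, one_mul]

lemma cut_Th_bdd {δ : ℝ} (hδ : 0 < δ) (h1 : δ ≤ 1) (t : E (k + 3)) :
    cut δ t * Th t ≤ (δ ^ (k + 2))⁻¹ := by
  rcases le_total ‖t‖ δ with h | h
  · refine (cut_Th hδ h1 h).trans ?_
    rw [pow_succ δ (k + 2), ← div_div, div_eq_mul_inv, div_eq_mul_inv]
    have : ‖t‖ * (δ ^ (k + 2))⁻¹ * δ⁻¹ = (‖t‖ * δ⁻¹) * (δ ^ (k + 2))⁻¹ := by ring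
    rw [this]
    have h3 : ‖t‖ * δ⁻¹ ≤ 1 := by
      rw [← div_eq_mul_inv]; exact (div_le_one hδ).2 h
    have h4 : 0 ≤ (δ ^ (k + 2))⁻¹ := by positivity
    calc (‖t‖ * δ⁻¹) * (δ ^ (k + 2))⁻¹ ≤ 1 * (δ ^ (k + 2))⁻¹ := by gcongr
      _ = _ := one_mul _
  · have h2 : Th t ≤ (δ ^ (k + 2))⁻¹ := by
      unfold Th
      have : δ ≤ min ‖t‖ 1 := le_min h h1
      gcongr
    calc cut δ t * Th t ≤ 1 * Th t := by
          gcongr
          · exact Th_nonneg t
          · exact cut_le_one hδ t
      _ ≤ _ := by rw [one_mul]; exact h2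

lemma cut_smul_cont {g : E (k + 3) → F} (hg : Adm g) {δ : ℝ} (hδ : 0 < δ) (h1 : δ ≤ 1) :
    Continuous (fun t => cut δ t • g t) := by
  rw [continuous_iff_continuousAt]
  intro t
  by_cases ht : t = 0
  · subst ht
    have hz : cut δ (0 : E (k + 3)) • g 0 = 0 := by
      have : cut δ (0 : E (k + 3)) = 0 := by simp [cut]
      rw [this, zero_smul]
    unfold ContinuousAt
    simp only
    rw [hz]
    apply squeeze_zero_norm' (a := fun t : E (k + 3) => ‖t‖ / δ ^ (k + 3))
    · filter_upwards [ball_mem_nhds (0 : E (k + 3)) hδ] with t ht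
      rw [mem_ball_zero_iff] at ht
      rw [norm_smul, Real.norm_of_nonneg (cut_nonneg hδ t)]
      exact (mul_le_mul_of_nonneg_left (hg.bound t) (cut_nonneg hδ t)).trans (cut_Th hδ h1 ht.le)
    · have : Continuous (fun t : E (k + 3) => ‖t‖ / δ ^ (k + 3)) := by fun_prop
      have := this.tendsto 0
      simpa using this
  · exact (cut_cont δ).continuousAt.smul (hg.cont t ht)

/-- potentials are continuous -/
theorem Adm.continuous {g : E (k + 3) → F} (hg : Adm g) {A : Set (E (k + 3))}
    (hA : volume A < ⊤) : Continuous (fun z => ∫ y in A, g (z - y)) := by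
  apply continuous_of_uniform_approx_of_continuous
  intro U hU
  obtain ⟨ε, hε, hεU⟩ := Metric.mem_uniformity_dist.1 hU
  have hsg := sg_pos k
  obtain ⟨δ, hδ, hδ1, hδε⟩ : ∃ δ : ℝ, 0 < δ ∧ δ ≤ 1 ∧ sg k * δ < ε := by
    refine ⟨min 1 (ε / (2 * sg k)), by positivity, min_le_left _ _, ?_⟩
    calc sg k * min 1 (ε / (2 * sg k)) ≤ sg k * (ε / (2 * sg k)) := by
          gcongr; exact min_le_right _ _
      _ = ε / 2 := by field_simp
      _ < ε := by linarith
  have hcc := cut_smul_cont hg hδ hδ1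
  refine ⟨fun z => ∫ y in A, cut δ (z - y) • g (z - y), ?_, ?_⟩
  · apply continuous_of_dominated (bound := fun _ => (δ ^ (k + 2))⁻¹)
    · intro z
      exact (hcc.comp (continuous_const.sub continuous_id)).aestronglyMeasurable
    · intro z
      refine Eventually.of_forall fun y => ?_
      rw [norm_smul, Real.norm_of_nonneg (cut_nonneg hδ _)]
      exact (mul_le_mul_of_nonneg_left (hg.bound _) (cut_nonneg hδ _)).trans (cut_Th_bdd hδ hδ1 _)
    · have : IsFiniteMeasure (volume.restrict A) := ⟨by rwa [Measure.restrict_apply_univ]⟩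
      exact integrable_const _
    · refine Eventually.of_forall fun y => ?_
      exact hcc.comp (continuous_id.sub continuous_const)
  · intro z
    apply hεU
    have hi1 := hg.integrable hA z
    have hi2 : IntegrableOn (fun y => cut δ (z - y) • g (z - y)) A := by
      refine (integrable_Th hA z).mono'
        (hcc.comp (continuous_const.sub continuous_id)).aestronglyMeasurable
        (Eventually.of_forall fun y => ?_)
      rw [norm_smul, Real.norm_of_nonneg (cut_nonneg hδ _)]
      calc cut δ (z - y) * ‖g (z - y)‖ ≤ 1 * Th (z - y) := by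
            gcongr
            · exact cut_le_one hδ _
            · exact hg.bound _
        _ = _ := one_mul _
    rw [dist_eq_norm, ← integral_sub hi1 hi2]
    have hb : ∀ y, ‖g (z - y) - cut δ (z - y) • g (z - y)‖ ≤
        (ball z δ).indicator (fun y => Th (z - y)) y := by
      intro y
      have e : g (z - y) - cut δ (z - y) • g (z - y) = (1 - cut δ (z - y)) • g (z - y) := by
        rw [sub_smul, one_smul]
      have h1 : 0 ≤ 1 - cut δ (z - y) := sub_nonneg.2 (cut_le_one hδ _)
      rw [e, norm_smul, Real.norm_of_nonneg h1]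
      by_cases h : y ∈ ball z δ
      · rw [indicator_of_mem h]
        calc (1 - cut δ (z - y)) * ‖g (z - y)‖ ≤ 1 * Th (z - y) := by
              gcongr
              · linarith [cut_nonneg hδ (z - y)]
              · exact hg.bound _
          _ = _ := one_mul _
      · rw [indicator_of_notMem h]
        have h2 : δ ≤ ‖z - y‖ := by
          rw [mem_ball, dist_eq_norm, norm_sub_rev, not_lt] at h
          exact h
        rw [cut_eq_one hδ h2]
        simp
    have hIb : IntegrableOn (fun y => Th (z - y)) (ball z δ) := integrable_Th measure_ball_lt_top z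
    have hI : Integrable ((ball z δ).indicator (fun y => Th (z - y))) :=
      (integrable_indicator_iff measurableSet_ball).2 hIb
    calc ‖∫ y in A, (g (z - y) - cut δ (z - y) • g (z - y))‖
        ≤ ∫ y in A, (ball z δ).indicator (fun y => Th (z - y)) y :=
          norm_integral_le_of_norm_le hI.integrableOn (Eventually.of_forall hb)
      _ ≤ ∫ y, (ball z δ).indicator (fun y => Th (z - y)) y :=
          setIntegral_le_integral hI (Eventually.of_forall fun y =>
            indicator_nonneg (fun y _ => Th_nonneg _) y)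
      _ = sg k * δ := by rw [integral_indicator measurableSet_ball, int_Th_ball z hδ.le hδ1]
      _ < ε := hδε

end general

end Pool.Agent.KS6_4.MV
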