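import Mathlib

/-! # Plane rotations -/

open MeasureTheory Metric Set Filter Topology

namespace Pool.Agent.KS6_4.MV

variable {V : Type*} [NormedAddCommGroup V] [InnerProductSpace ℝ V]

/-- an orthonormal pair -/
structure OP (e f : V) : Prop where
  he : inner ℝ e e = 1
  hf : inner ℝ f f = 1
  hef : inner ℝ e f = 0

lemma OP.symm {e f : V} (h : OP e f) : OP f e := ⟨h.hf, h.he, by rw [real_inner_comm]; exact h.hef⟩

/-- infinitesimal rotation -/
noncomputable def J (e f z : V) : V := (inner ℝ e z : ℝ) • f - (inner ℝ f z : ℝ) • e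

/-- rotation by the angle `θ` -/
noncomputable def R (e f : V) (θ : ℝ) (z : V) : V :=
  z + (((Real.cos θ - 1) * inner ℝ e z - Real.sin θ * inner ℝ f z) • e +
    ((Real.cos θ - 1) * inner ℝ f z + Real.sin θ * inner ℝ e z) • f)

variable {e f : V}

lemma J_swap (e f z : V) : J f e z = - J e f z := by
  unfold J; abel

lemma R_zero (z : V) : R e f 0 z = z := by
  simp [R]

lemma inner_e_R (h : OP e f) (θ : ℝ) (z : V) :
    inner ℝ e (R e f θ z) = Real.cos θ * inner ℝ e z - Real.sin θ * inner ℝ f z := by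
  unfold R
  rw [inner_add_right, inner_add_right, inner_smul_right, inner_smul_right, h.he, h.hef]
  ring

lemma inner_f_R (h : OP e f) (θ : ℝ) (z : V) :
    inner ℝ f (R e f θ z) = Real.cos θ * inner ℝ f z + Real.sin θ * inner ℝ e z := by
  unfold R
  rw [inner_add_right, inner_add_right, inner_smul_right, inner_smul_right, h.hf, h.symm.hef]
  ring

lemma norm_comb (h : OP e f) (z : V) (p q : ℝ) :
    ‖z + (p • e + q • f)‖ ^ 2 = ‖z‖ ^ 2 + 2 * p * inner ℝ e z + 2 * q * inner ℝ f z + p ^ 2 + q ^ 2 := by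
  rw [← real_inner_self_eq_norm_sq, ← real_inner_self_eq_norm_sq]
  simp only [inner_add_left, inner_add_right, inner_smul_left, inner_smul_right, h.he, h.hf, h.hef,
    h.symm.hef, real_inner_comm z e, real_inner_comm z f]
  simp
  ring

lemma norm_R_sq (h : OP e f) (θ : ℝ) (z : V) : ‖R e f θ z‖ ^ 2 = ‖z‖ ^ 2 := by
  unfold R
  rw [norm_comb h]
  have := Real.sin_sq_add_cos_sq θ
  linear_combination ((inner ℝ e z : ℝ) ^ 2 + (inner ℝ f z : ℝ) ^ 2) * this

lemma norm_R (h : OP e f) (θ : ℝ) (z : V) : ‖R e f θ z‖ = ‖z‖ := by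
  have := norm_R_sq h θ z
  exact (pow_left_inj₀ (norm_nonneg _) (norm_nonneg _) two_ne_zero).1 this

lemma bessel (h : OP e f) (z : V) : (inner ℝ e z : ℝ) ^ 2 + (inner ℝ f z : ℝ) ^ 2 ≤ ‖z‖ ^ 2 := by
  have := norm_comb h z (-(inner ℝ e z)) (-(inner ℝ f z))
  nlinarith [sq_nonneg ‖z + (-(inner ℝ e z : ℝ) • e + -(inner ℝ f z : ℝ) • f)‖]

lemma norm_J_le (h : OP e f) (z : V) : ‖J e f z‖ ≤ ‖z‖ := by
  have h1 : ‖J e f z‖ ^ 2 ≤ ‖z‖ ^ 2 := by
    have h2 := norm_comb h (0 : V) (-(inner ℝ f z)) (inner ℝ e z)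
    have h3 : (0 : V) + (-(inner ℝ f z : ℝ) • e + (inner ℝ e z : ℝ) • f) = J e f z := by
      unfold J
      rw [neg_smul]
      abel
    rw [h3] at h2
    rw [h2]
    simp only [norm_zero, inner_zero_right]
    nlinarith [bessel h z]
  exact (pow_le_pow_iff_left₀ (norm_nonneg _) (norm_nonneg _) two_ne_zero).1 h1

lemma inner_J_self (z : V) : inner ℝ (J e f z) z = (0:ℝ) := by
  unfold J
  rw [inner_sub_left, inner_smul_left, inner_smul_left]
  simp
  ring

lemma norm_R_sub_le (h : OP e f) (θ : ℝ) (z : V) : ‖R e f θ z - z‖ ≤ |θ| * ‖z‖ := by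
  have h1 : ‖R e f θ z - z‖ ^ 2 ≤ (|θ| * ‖z‖) ^ 2 := by
    have h2 : R e f θ z - z = 0 + (((Real.cos θ - 1) * inner ℝ e z - Real.sin θ * inner ℝ f z) • e +
        ((Real.cos θ - 1) * inner ℝ f z + Real.sin θ * inner ℝ e z) • f) := by
      unfold R; abel
    rw [h2, norm_comb h]
    simp only [norm_zero, inner_zero_right]
    have h3 := Real.one_sub_sq_div_two_le_cos (x := θ)
    have h4 := Real.sin_sq_add_cos_sq θ
    have h5 := bessel h z
    have h6 : (0:ℝ) ^ 2 + 2 * ((Real.cos θ - 1) * inner ℝ e z - Real.sin θ * inner ℝ f z) * 0 +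
        2 * ((Real.cos θ - 1) * inner ℝ f z + Real.sin θ * inner ℝ e z) * 0 +
        ((Real.cos θ - 1) * inner ℝ e z - Real.sin θ * inner ℝ f z) ^ 2 +
        ((Real.cos θ - 1) * inner ℝ f z + Real.sin θ * inner ℝ e z) ^ 2 =
        (2 - 2 * Real.cos θ) * ((inner ℝ e z : ℝ) ^ 2 + (inner ℝ f z : ℝ) ^ 2) := by
      linear_combination ((inner ℝ e z : ℝ) ^ 2 + (inner ℝ f z : ℝ) ^ 2) * h4
    rw [h6, mul_pow, sq_abs]
    have h7 : 2 - 2 * Real.cos θ ≤ θ ^ 2 := by linarith
    have h8 : 0 ≤ 2 - 2 * Real.cos θ := by linarith [Real.cos_le_one θ]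
    have h9 : 0 ≤ (inner ℝ e z : ℝ) ^ 2 + (inner ℝ f z : ℝ) ^ 2 := by positivity
    exact mul_le_mul h7 h5 h9 (sq_nonneg _)
  exact (pow_le_pow_iff_left₀ (norm_nonneg _) (by positivity) two_ne_zero).1 h1

lemma R_add (h : OP e f) (θ φ : ℝ) (z : V) : R e f (θ + φ) z = R e f θ (R e f φ z) := by
  have hd : ∀ w : V, R e f θ w = w + (((Real.cos θ - 1) * inner ℝ e w -
      Real.sin θ * inner ℝ f w) • e + ((Real.cos θ - 1) * inner ℝ f w +
      Real.sin θ * inner ℝ e w) • f) := fun _ => rfl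
  rw [hd (R e f φ z), inner_e_R h, inner_f_R h]
  unfold R
  rw [Real.cos_add, Real.sin_add]
  module

lemma R_neg_cancel (h : OP e f) (θ : ℝ) (z : V) : R e f (-θ) (R e f θ z) = z := by
  rw [← R_add h, neg_add_cancel, R_zero]

lemma R_iterate (h : OP e f) (θ : ℝ) (m : ℕ) (z : V) : (R e f θ)^[m] z = R e f (m * θ) z := by
  induction m with
  | zero => simp [R_zero]
  | succ m ih =>
    rw [Function.iterate_succ_apply', ih, ← R_add h]
    congr 1
    push_cast
    ring

lemma R_hasDerivAt (h : OP e f) (z : V) (φ : ℝ) :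
    HasDerivAt (fun φ => R e f φ z) (J e f (R e f φ z)) φ := by
  have e1 : J e f (R e f φ z) =
      ((-Real.sin φ) * inner ℝ e z - Real.cos φ * inner ℝ f z) • e +
      ((-Real.sin φ) * inner ℝ f z + Real.cos φ * inner ℝ e z) • f := by
    unfold J
    rw [inner_e_R h, inner_f_R h]
    module
  rw [e1]
  unfold R
  apply HasDerivAt.const_add
  have hc := Real.hasDerivAt_cos φ
  have hs := Real.hasDerivAt_sin φ
  apply HasDerivAt.add
  · exact (((hc.sub_const 1).mul_const _).sub (hs.mul_const _)).smul_const e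
  · exact (((hc.sub_const 1).mul_const _).add (hs.mul_const _)).smul_const f

lemma R_cont : Continuous (fun p : ℝ × V => R e f p.1 p.2) := by
  unfold R
  fun_prop

lemma J_cont : Continuous (J e f) := by
  unfold J
  fun_prop

/-- the rotation as a linear isometry -/
noncomputable def Rl (h : OP e f) (θ : ℝ) : V →ₗᵢ[ℝ] V where
  toFun := R e f θ
  map_add' x y := by
    unfold R
    rw [inner_add_right, inner_add_right]
    module
  map_smul' c x := by
    unfold R
    rw [inner_smul_right, inner_smul_right]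
    simp only [RingHom.id_apply]
    module
  norm_map' := norm_R h θ

/-- the rotation as a linear isometry equivalence -/
noncomputable def Re (h : OP e f) (θ : ℝ) : V ≃ₗᵢ[ℝ] V :=
  LinearIsometryEquiv.ofSurjective (Rl h θ) (fun z => ⟨R e f (-θ) z, by
    have := R_neg_cancel h (-θ) z
    rw [neg_neg] at this
    exact this⟩)

lemma Re_apply (h : OP e f) (θ : ℝ) (z : V) : Re h θ z = R e f θ z := rfl

end Pool.Agent.KS6_4.MV
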