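import Pool.Agent.KS6_4.MV.Ker
import Pool.Agent.KS6_4.MV.Rot

/-! # The Newtonian potential of a set and its angular derivative -/

open MeasureTheory Metric Set Filter Topology
open scoped ENNReal

namespace Pool.Agent.KS6_4.MV

open Pool.Agent.Y767.PB

variable {k : ℕ}

/-- the Newtonian kernel -/
noncomputable def N (t : E (k + 3)) : ℝ := (‖t‖ ^ (k + 1))⁻¹

/-- minus its gradient, up to the factor `k + 1` -/
noncomputable def Gk (t : E (k + 3)) : E (k + 3) := -((‖t‖ ^ (k + 3))⁻¹ • t)

lemma N_nonneg (t : E (k + 3)) : 0 ≤ N t := by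
  unfold N; positivity

lemma N_adm : Adm (N (k := k)) where
  meas := by
    apply Measurable.aestronglyMeasurable
    unfold N
    fun_prop
  cont t ht := by
    unfold N
    have : ‖t‖ ^ (k + 1) ≠ 0 := by positivity
    exact (continuous_norm.pow (k + 1)).continuousAt.inv₀ this
  bound t := by
    rw [Real.norm_of_nonneg (N_nonneg t)]
    unfold N Th
    rcases (norm_nonneg t).eq_or_lt with h | h
    · rw [← h]; simp
    · have h1 : min ‖t‖ 1 ^ (k + 2) ≤ ‖t‖ ^ (k + 1) := by
        rcases le_total ‖t‖ 1 with h2 | h2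
        · rw [min_eq_left h2]
          exact pow_le_pow_of_le_one h.le h2 (by omega)
        · rw [min_eq_right h2, one_pow]
          exact one_le_pow₀ h2
      have h3 : 0 < min ‖t‖ 1 := lt_min h one_pos
      gcongr

lemma norm_Gk (t : E (k + 3)) : ‖Gk t‖ = (‖t‖ ^ (k + 2))⁻¹ := by
  unfold Gk
  rw [norm_neg, norm_smul, norm_inv, norm_pow, norm_norm]
  rcases (norm_nonneg t).eq_or_lt with h | h
  · rw [← h]; simp
  · rw [pow_succ ‖t‖ (k + 2)]
    field_simp

lemma Gk_adm : Adm (Gk (k := k)) where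
  meas := by
    apply Measurable.aestronglyMeasurable
    unfold Gk
    fun_prop
  cont t ht := by
    unfold Gk
    have : ‖t‖ ^ (k + 3) ≠ 0 := by positivity
    exact ((((continuous_norm.pow (k + 3)).continuousAt.inv₀ this)).smul continuousAt_id).neg
  bound t := by
    rw [norm_Gk]
    unfold Th
    rcases (norm_nonneg t).eq_or_lt with h | h
    · rw [← h]; simp
    · have h3 : 0 < min ‖t‖ 1 := lt_min h one_pos
      gcongr
      exact min_le_left _ _

/-- the potential of a set -/
noncomputable def u (A : Set (E (k + 3))) (x : E (k + 3)) : ℝ := ∫ y in A, N (x - y)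

/-- its gradient, up to a factor -/
noncomputable def G (A : Set (E (k + 3))) (x : E (k + 3)) : E (k + 3) := ∫ y in A, Gk (x - y)

/-- the angular derivative -/
noncomputable def v (e f : E (k + 3)) (A : Set (E (k + 3))) (x : E (k + 3)) : ℝ :=
  inner ℝ (J e f x) (G A x)

variable {A : Set (E (k + 3))} {e f : E (k + 3)}

lemma u_cont (hA : volume A < ⊤) : Continuous (u A) := N_adm.continuous hA

lemma u_nonneg (x : E (k + 3)) : 0 ≤ u A x := integral_nonneg fun _ => N_nonneg _

lemma G_cont (hA : volume A < ⊤) : Continuous (G A) := Gk_adm.continuous hA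

lemma v_cont (hA : volume A < ⊤) : Continuous (v e f A) := by
  unfold v
  exact J_cont.inner (G_cont hA)

lemma v_swap (x : E (k + 3)) : v f e A x = - v e f A x := by
  unfold v
  rw [J_swap, inner_neg_left]

lemma abs_v_le (h : OP e f) (hA : volume A < ⊤) (x : E (k + 3)) :
    |v e f A x| ≤ (CC A).toReal * ‖x‖ := by
  unfold v
  have h1 : |inner ℝ (J e f x) (G A x)| ≤ ‖J e f x‖ * ‖G A x‖ := abs_real_inner_le_norm _ _
  have h2 : ‖G A x‖ ≤ (CC A).toReal := Gk_adm.norm_le hA x
  have h3 := norm_J_le h x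
  calc |inner ℝ (J e f x) (G A x)| ≤ ‖J e f x‖ * ‖G A x‖ := h1
    _ ≤ ‖x‖ * (CC A).toReal := by gcongr
    _ = _ := mul_comm _ _

lemma N_deriv (h : OP e f) (x y : E (k + 3)) (φ : ℝ) (hne : R e f φ x - y ≠ 0) :
    HasDerivAt (fun φ => N (R e f φ x - y))
      ((k + 1) * inner ℝ (J e f (R e f φ x)) (Gk (R e f φ x - y))) φ := by
  have h1 : HasDerivAt (fun φ => R e f φ x - y) (J e f (R e f φ x)) φ :=
    (R_hasDerivAt h x φ).sub_const y
  have h2 := h1.norm_sq
  set w := R e f φ x - y with hw
  have hn : 0 < ‖w‖ := norm_pos_iff.2 hne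
  have h3 := h2.sqrt (by positivity)
  have e3 : (fun φ => √(‖R e f φ x - y‖ ^ 2)) = fun φ => ‖R e f φ x - y‖ := by
    funext φ
    exact Real.sqrt_sq (norm_nonneg _)
  rw [e3, Real.sqrt_sq (norm_nonneg _)] at h3
  have h4 := (h3.pow (k + 1)).inv (by
    show (‖w‖ ^ (k + 1)) ≠ 0
    positivity)
  have e5 : (fun φ => N (R e f φ x - y)) = ((fun φ => ‖R e f φ x - y‖) ^ (k + 1))⁻¹ := by
    funext φ
    rfl
  rw [e5]
  refine h4.congr_deriv ?_
  simp only [Pi.pow_apply]
  rw [← hw]
  unfold Gk
  rw [inner_neg_right, inner_smul_right, real_inner_comm w]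
  rw [Nat.add_sub_cancel]
  field_simp
  push_cast
  ring

/-- the fundamental theorem of calculus for the kernel, along a rotation -/
lemma N_ftc (h : OP e f) {x y : E (k + 3)} (hxy : ‖y‖ ≠ ‖x‖) (θ : ℝ) :
    N (R e f θ x - y) - N (x - y) =
      ∫ φ in (0:ℝ)..θ, (k + 1) * inner ℝ (J e f (R e f φ x)) (Gk (R e f φ x - y)) := by
  have hne : ∀ φ, R e f φ x - y ≠ 0 := by
    intro φ hc
    apply hxy
    rw [← sub_eq_zero.1 hc, norm_R h]
  have hRc : Continuous (fun φ : ℝ => R e f φ x) := by
    have : Continuous (fun φ : ℝ => ((φ, x) : ℝ × E (k + 3))) := by fun_prop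
    exact R_cont.comp this
  have hc : Continuous (fun φ : ℝ => ((k:ℝ) + 1) *
      inner ℝ (J e f (R e f φ x)) (Gk (R e f φ x - y))) := by
    apply continuous_const.mul
    apply (J_cont.comp hRc).inner
    rw [continuous_iff_continuousAt]
    intro φ
    exact (Gk_adm.cont _ (hne φ)).comp (f := fun φ => R e f φ x - y)
      (hRc.sub continuous_const).continuousAt
  rw [intervalIntegral.integral_eq_sub_of_hasDerivAt
    (f := fun φ => N (R e f φ x - y)) (fun φ _ => N_deriv h x y φ (hne φ))
    (hc.intervalIntegrable _ _)]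
  rw [R_zero]

/-- the potential along a rotation -/
theorem u_ftc (h : OP e f) (hA : volume A < ⊤) (x : E (k + 3)) (θ : ℝ) :
    u A (R e f θ x) - u A x = ∫ φ in (0:ℝ)..θ, (k + 1) * v e f A (R e f φ x) := by
  have hRc : Continuous (fun φ : ℝ => R e f φ x) := by
    have : Continuous (fun φ : ℝ => ((φ, x) : ℝ × E (k + 3))) := by fun_prop
    exact R_cont.comp this
  have h1 : u A (R e f θ x) - u A x = ∫ y in A, (N (R e f θ x - y) - N (x - y)) := by
    unfold u
    rw [integral_sub (N_adm.integrable hA _) (N_adm.integrable hA _)]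
  have h2 : ∫ y in A, (N (R e f θ x - y) - N (x - y)) =
      ∫ y in A, ∫ φ in (0:ℝ)..θ, (k + 1) *
        inner ℝ (J e f (R e f φ x)) (Gk (R e f φ x - y)) := by
    apply integral_congr_ae
    have hs : ∀ᵐ y : E (k + 3), y ∉ sphere (0 : E (k + 3)) ‖x‖ :=
      measure_eq_zero_iff_ae_notMem.1 (Measure.addHaar_sphere _ _ _)
    filter_upwards [ae_restrict_of_ae hs] with y hy
    apply N_ftc h
    intro hc
    exact hy (mem_sphere_zero_iff_norm.2 hc)
  have hfin : IsFiniteMeasure (volume.restrict A) := ⟨by rwa [Measure.restrict_apply_univ]⟩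
  have hint : Integrable (Function.uncurry fun (φ : ℝ) (y : E (k + 3)) => ((k:ℝ) + 1) *
      inner ℝ (J e f (R e f φ x)) (Gk (R e f φ x - y)))
      ((volume.restrict (Set.uIoc 0 θ)).prod (volume.restrict A)) := by
    have hmeas : Measurable (Function.uncurry fun (φ : ℝ) (y : E (k + 3)) => ((k:ℝ) + 1) *
      inner ℝ (J e f (R e f φ x)) (Gk (R e f φ x - y))) := by
      have hG : Measurable (Gk (k := k)) := by unfold Gk; fun_prop
      have m1 : Measurable (fun p : ℝ × E (k + 3) => R e f p.1 x - p.2) :=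
        ((hRc.comp continuous_fst).sub continuous_snd).measurable
      have m2 : Measurable (fun p : ℝ × E (k + 3) => J e f (R e f p.1 x)) :=
        (J_cont.comp (hRc.comp continuous_fst)).measurable
      exact measurable_const.mul (m2.inner (hG.comp m1))
    rw [integrable_prod_iff hmeas.aestronglyMeasurable]
    have hb : ∀ (φ : ℝ) (y : E (k + 3)), ‖((k:ℝ) + 1) *
        inner ℝ (J e f (R e f φ x)) (Gk (R e f φ x - y))‖ ≤
        ((k:ℝ) + 1) * ‖x‖ * Th (R e f φ x - y) := by
      intro φ y
      rw [norm_mul, Real.norm_of_nonneg (by positivity : (0:ℝ) ≤ (k:ℝ) + 1), mul_assoc]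
      gcongr
      calc ‖inner ℝ (J e f (R e f φ x)) (Gk (R e f φ x - y))‖
          ≤ ‖J e f (R e f φ x)‖ * ‖Gk (R e f φ x - y)‖ := norm_inner_le_norm _ _
        _ ≤ ‖x‖ * Th (R e f φ x - y) := by
            gcongr
            · exact (norm_J_le h _).trans (norm_R h φ x).le
            · exact Gk_adm.bound _
    have hi : ∀ φ : ℝ, Integrable (fun y => ((k:ℝ) + 1) *
        inner ℝ (J e f (R e f φ x)) (Gk (R e f φ x - y))) (volume.restrict A) := by
      intro φ
      have h3 : IntegrableOn (fun y => ((k:ℝ) + 1) * ‖x‖ * Th (R e f φ x - y)) A :=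
        (integrable_Th hA _).const_mul _
      refine h3.mono' ?_ (Eventually.of_forall (hb φ))
      exact (hmeas.comp measurable_prodMk_left).aestronglyMeasurable
    refine ⟨Eventually.of_forall hi, ?_⟩
    have hfin2 : IsFiniteMeasure (volume.restrict (Set.uIoc (0:ℝ) θ)) := ⟨by
      rw [Measure.restrict_apply_univ, uIoc]; exact measure_Ioc_lt_top⟩
    apply Integrable.mono' (g := fun _ => ((k:ℝ) + 1) * ‖x‖ * (CC A).toReal)
    · exact integrable_const _
    · exact hmeas.aestronglyMeasurable.norm.integral_prod_right'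
    · refine Eventually.of_forall fun φ => ?_
      rw [Real.norm_of_nonneg (integral_nonneg fun _ => norm_nonneg _)]
      calc ∫ y in A, ‖((k:ℝ) + 1) * inner ℝ (J e f (R e f φ x)) (Gk (R e f φ x - y))‖
          ≤ ∫ y in A, ((k:ℝ) + 1) * ‖x‖ * Th (R e f φ x - y) := by
            apply integral_mono (hi φ).norm ((integrable_Th hA _).const_mul _) (hb φ)
        _ = ((k:ℝ) + 1) * ‖x‖ * ∫ y in A, Th (R e f φ x - y) := integral_const_mul _ _
        _ ≤ _ := by
            gcongr
            exact int_Th_le hA _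
  rw [h1, h2, ← intervalIntegral_integral_swap hint]
  apply intervalIntegral.integral_congr
  intro φ _
  simp only
  rw [integral_const_mul]
  congr 1
  unfold v G
  rw [← integral_inner]
  exact Gk_adm.integrable hA _

end Pool.Agent.KS6_4.MV
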