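import Pool.Agent.KS6_4.MV.Ball

/-! # A set whose potential is radial off the set has a radial potential -/

open MeasureTheory Metric Set Filter Topology
open scoped ENNReal

namespace Pool.Agent.KS6_4.MV

open Pool.Agent.Y767.PB

variable {k : ℕ} {A : Set (E (k + 3))} {e f : E (k + 3)}

/-- the essential interior -/
def Ess (A : Set (E (k + 3))) : Set (E (k + 3)) := {x | ∃ s : ℝ, 0 < s ∧ volume (ball x s \ A) = 0}

lemma R_cont1 (x : E (k + 3)) : Continuous (fun φ : ℝ => R e f φ x) := by
  have : Continuous (fun φ : ℝ => ((φ, x) : ℝ × E (k + 3))) := by fun_prop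
  exact R_cont.comp this

lemma R_cont2 (θ : ℝ) : Continuous (R e f θ : E (k + 3) → E (k + 3)) := by
  have : Continuous (fun x : E (k + 3) => ((θ, x) : ℝ × E (k + 3))) := by fun_prop
  exact R_cont.comp this

/-- the angular derivative vanishes off the essential interior -/
theorem v_zero_off (h : OP e f) (hA : volume A < ⊤) (hm : MeasurableSet A) {m : ℝ → ℝ}
    (hu : ∀ x, x ∉ A → u A x = m ‖x‖) {x₀ : E (k + 3)} (hx₀ : x₀ ∉ Ess A) : v e f A x₀ = 0 := by
  by_contra hv
  have hgc : Continuous (fun z => v e f A z * v e f A x₀) := (v_cont hA).mul continuous_const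
  have hg0 : 0 < v e f A x₀ * v e f A x₀ := mul_self_pos.2 hv
  obtain ⟨δ, hδ, hδg⟩ := Metric.mem_nhds_iff.1 ((hgc.tendsto x₀).eventually (lt_mem_nhds hg0))
  set S := ball x₀ (δ / 2) \ A with hS
  have hSm : MeasurableSet S := measurableSet_ball.diff hm
  have hSv : volume S ≠ 0 := fun hc => hx₀ ⟨δ / 2, by positivity, hc⟩
  set ρ := ‖x₀‖ + δ with hρ
  have hρ0 : 0 < ρ := by positivity
  have hSρ : S ⊆ ball 0 ρ := by
    intro x hx
    have h1 := hx.1
    rw [mem_ball, dist_eq_norm] at h1
    rw [mem_ball_zero_iff]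
    have h2 : ‖x‖ ≤ ‖x - x₀‖ + ‖x₀‖ := by
      calc ‖x‖ = ‖(x - x₀) + x₀‖ := by rw [sub_add_cancel]
        _ ≤ _ := norm_add_le _ _
    rw [hρ]; linarith
  obtain ⟨n, hn⟩ := ENNReal.exists_nat_mul_gt hSv (measure_ball_lt_top (μ := volume)
    (x := (0 : E (k + 3))) (r := ρ)).ne
  have hn0 : (0:ℝ) < n := by
    rcases Nat.eq_zero_or_pos n with h0 | h0
    · rw [h0] at hn; simp at hn
    · exact_mod_cast h0
  set θ₀ := δ / (2 * ρ) with hθ₀
  have hθ₀p : 0 < θ₀ := by positivity
  set θ := θ₀ / n with hθ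
  have hmp : MeasurePreserving (R e f θ) (volume.restrict (ball (0 : E (k + 3)) ρ))
      (volume.restrict (ball (0 : E (k + 3)) ρ)) := by
    have h1 := ((Re h θ).measurePreserving).restrict_preimage
      (measurableSet_ball (x := (0 : E (k + 3))) (ε := ρ))
    have h2 : (Re h θ) ⁻¹' (ball (0 : E (k + 3)) ρ) = ball (0 : E (k + 3)) ρ := by
      ext z
      rw [mem_preimage, mem_ball_zero_iff, mem_ball_zero_iff, LinearIsometryEquiv.norm_map]
    rw [h2] at h1
    exact h1
  obtain ⟨x, hxS, j, hj, hjS⟩ := hmp.exists_mem_iterate_mem_of_measure_univ_lt_mul_measure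
    (s := S) hSm.nullMeasurableSet (n := n) (by
      rw [Measure.restrict_apply_univ, Measure.restrict_apply hSm, inter_eq_left.2 hSρ]
      exact hn)
  rw [R_iterate h] at hjS
  have hj0 : (0:ℝ) < j := by exact_mod_cast hj.1
  have hjn : (j:ℝ) < n := by exact_mod_cast hj.2
  have ht0 : 0 < j * θ := by positivity
  have ht1 : j * θ < θ₀ := by
    rw [hθ, ← mul_div_assoc, div_lt_iff₀ hn0, mul_comm]
    exact mul_lt_mul_of_pos_left hjn hθ₀p
  have h0 : u A (R e f (j * θ) x) - u A x = 0 := by
    rw [hu x hxS.2, hu _ hjS.2, norm_R h, sub_self]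
  rw [u_ftc h hA] at h0
  have hc : Continuous (fun φ : ℝ => (k + 1) * v e f A (R e f φ x) * v e f A x₀) :=
    (continuous_const.mul ((v_cont hA).comp (R_cont1 x))).mul continuous_const
  have hpos : 0 < ∫ φ in (0:ℝ)..(j * θ), (k + 1) * v e f A (R e f φ x) * v e f A x₀ := by
    apply intervalIntegral.intervalIntegral_pos_of_pos_on (hc.intervalIntegrable _ _) _ ht0
    intro φ hφ
    have h1 : R e f φ x ∈ ball x₀ δ := by
      rw [mem_ball, dist_eq_norm]
      have h2 := norm_R_sub_le h φ x
      have h3 := hxS.1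
      rw [mem_ball, dist_eq_norm] at h3
      have h4 : ‖x‖ < ρ := mem_ball_zero_iff.1 (hSρ hxS)
      have h5 : |φ| * ‖x‖ ≤ θ₀ * ρ := by
        rw [abs_of_pos hφ.1]
        exact mul_le_mul (hφ.2.trans ht1).le h4.le (norm_nonneg _) hθ₀p.le
      have h6 : θ₀ * ρ = δ / 2 := by rw [hθ₀]; field_simp
      calc ‖R e f φ x - x₀‖ = ‖(R e f φ x - x) + (x - x₀)‖ := by rw [sub_add_sub_cancel]
        _ ≤ ‖R e f φ x - x‖ + ‖x - x₀‖ := norm_add_le _ _
        _ < δ := by linarith
    have h7 : 0 < v e f A (R e f φ x) * v e f A x₀ := hδg h1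
    rw [mul_assoc]
    have : (0:ℝ) < k + 1 := by positivity
    positivity
  rw [intervalIntegral.integral_mul_const, h0, zero_mul] at hpos
  exact lt_irrefl _ hpos

lemma u_rot_deriv (h : OP e f) (hA : volume A < ⊤) (z : E (k + 3)) (θ : ℝ) :
    HasDerivAt (fun θ => u A (R e f θ z)) ((k + 1) * v e f A (R e f θ z)) θ := by
  have hc : Continuous (fun φ : ℝ => ((k:ℝ) + 1) * v e f A (R e f φ z)) :=
    continuous_const.mul ((v_cont hA).comp (R_cont1 z))
  have h1 : (fun θ => u A (R e f θ z)) =
      fun θ => (∫ φ in (0:ℝ)..θ, (k + 1) * v e f A (R e f φ z)) + u A z := by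
    funext θ
    rw [← u_ftc h hA z θ, sub_add_cancel]
  rw [h1]
  exact (intervalIntegral.integral_hasDerivAt_right (hc.intervalIntegrable _ _)
    hc.aestronglyMeasurable.stronglyMeasurableAtFilter hc.continuousAt).add_const _

lemma int_ball_rot (h : OP e f) (g : E (k + 3) → ℝ) (x : E (k + 3)) (s θ : ℝ) :
    ∫ z in ball x s, g (R e f θ z) = ∫ z in ball (R e f θ x) s, g z := by
  have h1 := ((Re h θ).measurePreserving).setIntegral_preimage_emb
    (Re h θ).toHomeomorph.measurableEmbedding g (ball (R e f θ x) s)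
  rw [← h1]
  congr 2
  ext z
  rw [mem_preimage, mem_ball, mem_ball, ← Re_apply h θ x, LinearIsometryEquiv.dist_map]

/-- the mean value property of the angular derivative -/
theorem v_mean (h : OP e f) (hA : volume A < ⊤) {x : E (k + 3)} {s s' : ℝ}
    (hx : volume (ball x s \ A) = 0) (hs' : 0 < s') (hss : s' < s) :
    volume.real (ball x s') * v e f A x = ∫ z in ball x s', v e f A z := by
  have hball : IsFiniteMeasure (volume.restrict (ball x s')) := ⟨by
    rw [Measure.restrict_apply_univ]; exact measure_ball_lt_top⟩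
  -- the function is constant near 0
  have hconst : ∀ᶠ θ in 𝓝 (0:ℝ), (∫ z in ball x s', u A (R e f θ z)) -
      volume.real (ball x s') * u A (R e f θ x) = -(sg k * kap k s') := by
    have hb : ∀ᶠ θ in 𝓝 (0:ℝ), R e f θ x ∈ ball x (s - s') := by
      have := (R_cont1 (e := e) (f := f) x).tendsto 0
      rw [R_zero] at this
      exact this.eventually (ball_mem_nhds x (by linarith))
    filter_upwards [hb] with θ hθ
    have h1 : volume (ball (R e f θ x) s' \ A) = 0 := by
      refine measure_mono_null ?_ hx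
      intro z hz
      refine ⟨?_, hz.2⟩
      have h2 := hz.1
      rw [mem_ball] at h2 hθ ⊢
      calc dist z x ≤ dist z (R e f θ x) + dist (R e f θ x) x := dist_triangle _ _ _
        _ < s := by linarith
    have h2 := u_defect hA (R e f θ x) hs'.le
    rw [Dk_full hs'.le h1] at h2
    rw [int_ball_rot h, vol_ball_real x hs'.le, ← vol_ball_real (R e f θ x) hs'.le]
    linarith
  have hd1 := hasDerivAt_integral_of_dominated_loc_of_deriv_le (μ := volume.restrict (ball x s'))
    (F := fun θ z => u A (R e f θ z)) (F' := fun θ z => (k + 1) * v e f A (R e f θ z))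
    (x₀ := 0) (s := univ) (bound := fun _ => ((k:ℝ) + 1) * ((CC A).toReal * (‖x‖ + s')))
    univ_mem
    (Eventually.of_forall fun θ => ((u_cont hA).comp (R_cont2 θ)).aestronglyMeasurable)
    (by
      have hc : Continuous fun z => u A (R e f 0 z) := (u_cont hA).comp (R_cont2 0)
      exact (hc.continuousOn.integrableOn_compact (isCompact_closedBall x s')).mono_set
        ball_subset_closedBall)
    (by
      have hc : Continuous fun z => ((k:ℝ) + 1) * v e f A (R e f 0 z) :=
        continuous_const.mul ((v_cont hA).comp (R_cont2 0))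
      exact hc.aestronglyMeasurable)
    (by
      refine (ae_restrict_iff' measurableSet_ball).2 (Eventually.of_forall fun z hz θ _ => ?_)
      rw [norm_mul, Real.norm_of_nonneg (by positivity : (0:ℝ) ≤ (k:ℝ) + 1)]
      gcongr
      rw [Real.norm_eq_abs]
      refine (abs_v_le h hA _).trans ?_
      rw [norm_R h]
      gcongr
      rw [mem_ball, dist_eq_norm] at hz
      calc ‖z‖ = ‖x + (z - x)‖ := by rw [add_sub_cancel]
        _ ≤ ‖x‖ + ‖z - x‖ := norm_add_le _ _
        _ ≤ _ := by linarith)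
    (integrable_const _)
    (Eventually.of_forall fun z θ _ => u_rot_deriv h hA z θ)
  have hd2 := (u_rot_deriv h hA x 0).const_mul (volume.real (ball x s'))
  have hd := hd1.2.sub hd2
  have hd0 : HasDerivAt (fun _ : ℝ => -(sg k * kap k s')) 0 0 := hasDerivAt_const _ _
  have hd3 := hd0.congr_of_eventuallyEq hconst
  have h9 := hd3.unique hd
  simp only [R_zero] at h9
  rw [integral_const_mul] at h9
  have hk : (0:ℝ) < (k:ℝ) + 1 := by positivity
  have h10 : ((k:ℝ) + 1) * (∫ z in ball x s', v e f A z) =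
      ((k:ℝ) + 1) * (volume.real (ball x s') * v e f A x) := by linarith
  exact (mul_left_cancel₀ hk.ne' h10).symm

/-- the barrier -/
noncomputable def lam (k : ℕ) : ℝ := sg k * (k + 1) / (4 * (k + 3))

lemma lam_pos (k : ℕ) : 0 < lam k := by
  have := sg_pos k
  unfold lam; positivity

noncomputable def psi (A : Set (E (k + 3))) (x : E (k + 3)) : ℝ := u A x + lam k * ‖x‖ ^ 2

lemma psi_nonneg (x : E (k + 3)) : 0 ≤ psi A x := by
  have := lam_pos k
  have := u_nonneg (A := A) x
  unfold psi; positivity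

lemma psi_cont (hA : volume A < ⊤) : Continuous (psi A) := by
  unfold psi
  exact (u_cont hA).add (by fun_prop)

lemma psi_super (hA : volume A < ⊤) {x : E (k + 3)} {s : ℝ} (hs : 0 < s)
    (hx : volume (ball x s \ A) = 0) :
    ∫ z in ball x s, psi A z < volume.real (ball x s) * psi A x := by
  have hbi : ∀ g : E (k + 3) → ℝ, Continuous g → IntegrableOn g (ball x s) := fun g hg =>
    (hg.continuousOn.integrableOn_compact (isCompact_closedBall x s)).mono_set ball_subset_closedBall
  have h1 : ∫ z in ball x s, psi A z = (∫ z in ball x s, u A z) +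
      lam k * ∫ z in ball x s, ‖z‖ ^ 2 := by
    unfold psi
    rw [integral_add (hbi _ (u_cont hA)) (hbi _ (by fun_prop)), integral_const_mul]
  have h2 := u_defect hA x hs.le
  rw [Dk_full hs.le hx, kap_eq hs] at h2
  rw [h1, sq_ball x hs]
  unfold psi
  have hsg := sg_pos k
  have h3 : lam k * (sg k * (s ^ (k + 5) / (k + 5))) <
      sg k * (sg k * (s ^ (k + 5) * (k + 1) / (2 * (k + 3) * (k + 5)))) := by
    unfold lam
    have : (sg k * (k + 1) / (4 * (k + 3))) * (sg k * (s ^ (k + 5) / (k + 5))) =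
        1 / 2 * (sg k * (sg k * (s ^ (k + 5) * (k + 1) / (2 * (k + 3) * (k + 5))))) := by
      field_simp
      norm_num
    rw [this]
    have hp : 0 < sg k * (sg k * (s ^ (k + 5) * ((k:ℝ) + 1) / (2 * (k + 3) * (k + 5)))) := by
      positivity
    linarith
  nlinarith

/-- the angular derivative is nonpositive -/
theorem v_le (h : OP e f) (hA : volume A < ⊤) (hm : MeasurableSet A) {m : ℝ → ℝ}
    (hu : ∀ x, x ∉ A → u A x = m ‖x‖) {ε : ℝ} (hε : 0 < ε) (x₁ : E (k + 3)) :
    v e f A x₁ ≤ ε * psi A x₁ := by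
  by_contra hc
  push Not at hc
  set g : E (k + 3) → ℝ := fun x => v e f A x - ε * psi A x with hg
  have hgc : Continuous g := (v_cont hA).sub (continuous_const.mul (psi_cont hA))
  have hg1 : 0 < g x₁ := by simp only [hg]; linarith
  have hl := lam_pos k
  obtain ⟨x₀, hx₀⟩ : ∃ x, ∀ y, g y ≤ g x := by
    apply hgc.exists_forall_ge' x₁
    have hcp := (isCompact_closedBall (0 : E (k + 3)) ((CC A).toReal / (ε * lam k))).compl_mem_cocompact
    filter_upwards [hcp] with x hx
    rw [mem_compl_iff, mem_closedBall_zero_iff, not_le, div_lt_iff₀ (by positivity)] at hx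
    have h1 := abs_v_le h hA x
    have h2 : v e f A x ≤ (CC A).toReal * ‖x‖ := (le_abs_self _).trans h1
    have h3 : lam k * ‖x‖ ^ 2 ≤ psi A x := by
      unfold psi
      linarith [u_nonneg (A := A) x]
    have h4 : (CC A).toReal * ‖x‖ ≤ ε * (lam k * ‖x‖ ^ 2) := by
      have := mul_le_mul_of_nonneg_right hx.le (norm_nonneg x)
      nlinarith
    have h5 : ε * (lam k * ‖x‖ ^ 2) ≤ ε * psi A x := by gcongr
    simp only [hg] at hg1 ⊢
    linarith
  have hg0 : 0 < g x₀ := hg1.trans_le (hx₀ x₁)
  have hE : x₀ ∈ Ess A := by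
    by_contra hc
    have h1 := v_zero_off h hA hm hu hc
    simp only [hg] at hg0
    rw [h1] at hg0
    have := psi_nonneg (A := A) x₀
    have : 0 ≤ ε * psi A x₀ := by positivity
    linarith
  obtain ⟨s, hs, hs0⟩ := hE
  have hs2 : 0 < s / 2 := by positivity
  have h1 := v_mean h hA hs0 hs2 (by linarith)
  have h2 := psi_super hA hs2 (measure_mono_null
    (sdiff_subset_sdiff_left (ball_subset_ball (by linarith : s / 2 ≤ s))) hs0)
  have hbi : ∀ g : E (k + 3) → ℝ, Continuous g → IntegrableOn g (ball x₀ (s / 2)) := fun g hg =>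
    (hg.continuousOn.integrableOn_compact (isCompact_closedBall x₀ _)).mono_set
      ball_subset_closedBall
  have h3 : ∫ z in ball x₀ (s / 2), g z ≤ volume.real (ball x₀ (s / 2)) * g x₀ := by
    calc ∫ z in ball x₀ (s / 2), g z ≤ ∫ z in ball x₀ (s / 2), g x₀ :=
          setIntegral_mono (hbi _ hgc) (hbi _ continuous_const) hx₀
      _ = _ := by rw [setIntegral_const, smul_eq_mul]
  have h4 : ∫ z in ball x₀ (s / 2), g z = (∫ z in ball x₀ (s / 2), v e f A z) -
      ε * ∫ z in ball x₀ (s / 2), psi A z := by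
    have hc1 : Continuous fun x => ε * psi A x := continuous_const.mul (psi_cont hA)
    simp only [hg]
    rw [integral_sub (hbi _ (v_cont hA)) (hbi _ hc1), integral_const_mul]
  rw [h4, ← h1] at h3
  simp only [hg] at h3
  have h5 := mul_lt_mul_of_pos_left h2 hε
  nlinarith

theorem v_nonpos (h : OP e f) (hA : volume A < ⊤) (hm : MeasurableSet A) {m : ℝ → ℝ}
    (hu : ∀ x, x ∉ A → u A x = m ‖x‖) (x : E (k + 3)) : v e f A x ≤ 0 := by
  by_contra hc
  push Not at hc
  have h1 := psi_nonneg (A := A) x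
  have h2 := v_le h hA hm hu (ε := v e f A x / (2 * (psi A x + 1))) (by positivity) x
  have h3 : v e f A x / (2 * (psi A x + 1)) * psi A x ≤ v e f A x / 2 := by
    rw [div_mul_eq_mul_div, div_le_div_iff₀ (by positivity) (by positivity)]
    nlinarith
  linarith

theorem v_eq_zero (h : OP e f) (hA : volume A < ⊤) (hm : MeasurableSet A) {m : ℝ → ℝ}
    (hu : ∀ x, x ∉ A → u A x = m ‖x‖) (x : E (k + 3)) : v e f A x = 0 := by
  have h1 := v_nonpos h hA hm hu x
  have h2 := v_nonpos h.symm hA hm hu x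
  rw [v_swap] at h2
  linarith

theorem u_rot (h : OP e f) (hA : volume A < ⊤) (hm : MeasurableSet A) {m : ℝ → ℝ}
    (hu : ∀ x, x ∉ A → u A x = m ‖x‖) (x : E (k + 3)) (θ : ℝ) : u A (R e f θ x) = u A x := by
  have h1 := u_ftc h hA x θ
  simp only [v_eq_zero h hA hm hu, mul_zero, intervalIntegral.integral_zero] at h1
  linarith

end Pool.Agent.KS6_4.MV
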