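import Pool.Agent.KS6_4.MV.Rad

/-! # Radiality of the potential and of the essential interior -/

open MeasureTheory Metric Set Filter Topology
open scoped ENNReal

namespace Pool.Agent.KS6_4.MV

open Pool.Agent.Y767.PB

variable {k : ℕ} {A : Set (E (k + 3))}

/-- a nonzero vector orthogonal to a unit vector -/
lemma exists_orth {e : E (k + 3)} (he : inner ℝ e e = (1:ℝ)) : ∃ w : E (k + 3), w ≠ 0 ∧ inner ℝ e w = (0:ℝ) := by
  let i : Fin (k + 3) := ⟨0, by omega⟩
  let j : Fin (k + 3) := ⟨1, by omega⟩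
  have hij : i ≠ j := by simp [i, j]
  set a : E (k + 3) := EuclideanSpace.single i 1 with ha
  set b : E (k + 3) := EuclideanSpace.single j 1 with hb
  have haa : inner ℝ a a = (1:ℝ) := by rw [real_inner_self_eq_norm_sq, ha]; simp
  have hbb : inner ℝ b b = (1:ℝ) := by rw [real_inner_self_eq_norm_sq, hb]; simp
  have hab : inner ℝ a b = (0:ℝ) := by
    rw [ha, hb, EuclideanSpace.inner_single_left]
    simp [hij]
  have key : ∀ c : E (k + 3), inner ℝ e (c - (inner ℝ e c : ℝ) • e) = (0:ℝ) := by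
    intro c
    rw [inner_sub_right, inner_smul_right, he]
    ring
  by_cases h1 : a - (inner ℝ e a : ℝ) • e = 0
  · by_cases h2 : b - (inner ℝ e b : ℝ) • e = 0
    · exfalso
      have h3 := sub_eq_zero.1 h1
      have h4 := sub_eq_zero.1 h2
      have h5 : inner ℝ a b = (inner ℝ e a : ℝ) * inner ℝ e b := by
        conv_lhs => rw [h3, h4]
        rw [inner_smul_left, inner_smul_right, he]
        simp
      rw [hab] at h5
      rcases mul_eq_zero.1 h5.symm with h6 | h6
      · rw [h6, zero_smul] at h3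
        rw [h3] at haa
        simp at haa
      · rw [h6, zero_smul] at h4
        rw [h4] at hbb
        simp at hbb
    · exact ⟨_, h2, key b⟩
  · exact ⟨_, h1, key a⟩

lemma exists_OP {e : E (k + 3)} (he : inner ℝ e e = (1:ℝ)) (y : E (k + 3)) :
    ∃ f : E (k + 3), OP e f ∧ ∃ b : ℝ, y = (inner ℝ e y : ℝ) • e + b • f := by
  set w := y - (inner ℝ e y : ℝ) • e with hw
  have hew : inner ℝ e w = (0:ℝ) := by
    rw [hw, inner_sub_right, inner_smul_right, he]; ring
  have key : ∀ w : E (k + 3), w ≠ 0 → inner ℝ e w = (0:ℝ) → OP e (‖w‖⁻¹ • w) := by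
    intro w hw0 hew
    have hn : ‖w‖ ≠ 0 := norm_ne_zero_iff.2 hw0
    refine ⟨he, ?_, ?_⟩
    · rw [inner_smul_left, inner_smul_right, real_inner_self_eq_norm_sq]
      simp
      field_simp
    · rw [inner_smul_right, hew, mul_zero]
  by_cases h0 : w = 0
  · obtain ⟨w', hw', hew'⟩ := exists_orth he
    refine ⟨_, key w' hw' hew', 0, ?_⟩
    rw [zero_smul, add_zero]
    exact sub_eq_zero.1 (hw ▸ h0)
  · refine ⟨_, key w h0 hew, ‖w‖, ?_⟩
    have hn : ‖w‖ ≠ 0 := norm_ne_zero_iff.2 h0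
    rw [smul_smul, mul_inv_cancel₀ hn, one_smul, hw]
    abel

/-- plane rotations act transitively on spheres -/
theorem exists_R {x y : E (k + 3)} (hxy : ‖x‖ = ‖y‖) :
    ∃ (e f : E (k + 3)) (_ : OP e f) (θ : ℝ), R e f θ x = y := by
  by_cases hx : x = 0
  · have hy : y = 0 := by
      rw [hx, norm_zero] at hxy
      exact norm_eq_zero.1 hxy.symm
    let i : Fin (k + 3) := ⟨0, by omega⟩
    have he : inner ℝ (EuclideanSpace.single i (1:ℝ) : E (k + 3)) (EuclideanSpace.single i 1) =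
        (1:ℝ) := by
      rw [real_inner_self_eq_norm_sq]; simp
    obtain ⟨f, hf, -⟩ := exists_OP he 0
    exact ⟨_, f, hf, 0, by rw [R_zero, hx, hy]⟩
  · have hr : 0 < ‖x‖ := norm_pos_iff.2 hx
    set e : E (k + 3) := ‖x‖⁻¹ • x with he
    have hee : inner ℝ e e = (1:ℝ) := by
      rw [he, inner_smul_left, inner_smul_right, real_inner_self_eq_norm_sq]
      simp
      field_simp
    obtain ⟨f, hf, b, hb⟩ := exists_OP hee y
    set a : ℝ := inner ℝ e y with ha
    have hxe : x = ‖x‖ • e := by rw [he, smul_smul, mul_inv_cancel₀ hr.ne', one_smul]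
    have hex : inner ℝ e x = ‖x‖ := by
      conv_lhs => rw [hxe]
      rw [inner_smul_right, hee, mul_one]
    have hfx : inner ℝ f x = (0:ℝ) := by
      conv_lhs => rw [hxe]
      rw [inner_smul_right, hf.symm.hef, mul_zero]
    have hab : a ^ 2 + b ^ 2 = ‖x‖ ^ 2 := by
      rw [hxy]
      have := norm_comb hf (0 : E (k + 3)) a b
      rw [zero_add, ← hb] at this
      rw [this]
      simp
    set c : ℂ := ⟨a, b⟩ with hc
    have hcn : ‖c‖ = ‖x‖ := by
      rw [Complex.norm_def, Complex.normSq_mk, ← sq, ← sq, hab, Real.sqrt_sq hr.le]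
    have hc0 : c ≠ 0 := by
      rw [← norm_pos_iff, hcn]; exact hr
    refine ⟨e, f, hf, Complex.arg c, ?_⟩
    have h1 : ‖x‖ * Real.cos (Complex.arg c) = a := by
      rw [Complex.cos_arg hc0, hcn]
      field_simp
      rfl
    have h2 : ‖x‖ * Real.sin (Complex.arg c) = b := by
      rw [Complex.sin_arg, hcn]
      field_simp
      rfl
    unfold R
    rw [hex, hfx, hb, ← h1, ← h2]
    conv_lhs => rw [hxe]
    rw [norm_smul, norm_norm]
    have hen : ‖e‖ = 1 := by
      have := real_inner_self_eq_norm_sq e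
      rw [hee] at this
      nlinarith [norm_nonneg e]
    rw [hen]
    module

/-- the potential is radial -/
theorem u_rad (hA : volume A < ⊤) (hm : MeasurableSet A) {m : ℝ → ℝ}
    (hu : ∀ x, x ∉ A → u A x = m ‖x‖) {x y : E (k + 3)} (hxy : ‖x‖ = ‖y‖) : u A x = u A y := by
  obtain ⟨e, f, h, θ, hR⟩ := exists_R hxy
  rw [← hR, u_rot h hA hm hu]

/-- the essential interior is radial -/
theorem Ess_rad (hA : volume A < ⊤) (hm : MeasurableSet A) {m : ℝ → ℝ}
    (hu : ∀ x, x ∉ A → u A x = m ‖x‖) {x y : E (k + 3)} (hxy : ‖x‖ = ‖y‖) (hx : x ∈ Ess A) :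
    y ∈ Ess A := by
  obtain ⟨e, f, h, θ, hR⟩ := exists_R hxy
  obtain ⟨s, hs, hs0⟩ := hx
  refine ⟨s, hs, full_of_Dk hm hs.le ?_⟩
  have h1 := u_defect hA x hs.le
  rw [Dk_full hs.le hs0] at h1
  have h2 := u_defect hA y hs.le
  have h3 : ∫ z in ball y s, u A z = ∫ z in ball x s, u A z := by
    rw [← hR, ← int_ball_rot h]
    congr 1
    funext z
    exact u_rot h hA hm hu z θ
  rw [h3, ← u_rad hA hm hu hxy, vol_ball_real y hs.le, ← vol_ball_real x hs.le, h1] at h2
  exact (mul_left_cancel₀ (sg_pos k).ne' h2).symm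

lemma Ess_open (A : Set (E (k + 3))) : IsOpen (Ess A) := by
  rw [Metric.isOpen_iff]
  rintro x ⟨s, hs, h0⟩
  refine ⟨s / 2, by positivity, fun z hz => ⟨s / 2, by positivity, measure_mono_null ?_ h0⟩⟩
  apply sdiff_subset_sdiff_left
  intro w hw
  rw [mem_ball] at hw hz ⊢
  calc dist w x ≤ dist w z + dist z x := dist_triangle _ _ _
    _ < s := by linarith

lemma Ess_diff (A : Set (E (k + 3))) : volume (Ess A \ A) = 0 := by
  apply measure_null_of_locally_null
  rintro x ⟨⟨s, hs, h0⟩, hxA⟩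
  refine ⟨(Ess A \ A) ∩ ball x s, inter_mem_nhdsWithin _ (ball_mem_nhds x hs), ?_⟩
  refine measure_mono_null ?_ h0
  rintro y ⟨⟨_, hy2⟩, hy3⟩
  exact ⟨hy3, hy2⟩

end Pool.Agent.KS6_4.MV
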